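import Mathlib

/-!
# MP_3240be_co, Theorem M, row SPI: the spider lemma
-/

set_option autoImplicit false

namespace MP3240M

/-- The spider lemma. -/
theorem spider {X : Type} [Finite X] (o : X) (Ψ : X → X) (hΨ : ∀ i, Ψ i ≠ o) (r : X → X → Prop)
    (hr : Equivalence r) (hinj : ∀ i j, r i j → Ψ i = Ψ j → i = j) (d : X → X → ℕ) (f : X → ℕ)
    (ha : ∀ i j, r i j → d (Ψ i) (Ψ j) ≤ d i j) (hb : ∀ i j, ¬ r i j → f (Ψ i) < d i j)
    (hc : ∀ j, d o j ≤ f j) : False := by
  obtain ⟨a, ha0, hs⟩ : ∃ a : ℕ → X, a 0 = o ∧ ∀ k, a (k + 1) = Ψ (a k) :=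
    ⟨fun k => Ψ^[k] o, rfl, fun k => Function.iterate_succ_apply' Ψ k o⟩
  have hall : ∀ k, r o (a k) ∧ d (a k) (a (k + 1)) ≤ f (a 1) := by
    intro k
    induction k with
    | zero =>
      refine ⟨by rw [ha0]; exact hr.refl o, ?_⟩
      rw [ha0]
      exact hc _
    | succ k ih =>
      have h1 : r (a k) (a (k + 1)) := by
        by_contra hcon
        have e1 := hb _ _ hcon
        rw [← hs k] at e1
        have e2 : ¬ r o (a (k + 1)) := fun h => hcon (hr.trans (hr.symm ih.1) h)
        have e3 := hb _ _ e2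
        have e4 := hc (a (k + 1))
        have e5 : Ψ o = a 1 := by rw [hs 0, ha0]
        rw [e5] at e3
        have := ih.2
        omega
      refine ⟨hr.trans ih.1 h1, ?_⟩
      have h2 := ha _ _ h1
      rw [← hs k, ← hs (k + 1)] at h2
      exact h2.trans ih.2
  have hne : ∀ k m, a k ≠ a (k + m + 1) := by
    intro k
    induction k with
    | zero =>
      intro m h
      rw [ha0, hs] at h
      exact hΨ _ h.symm
    | succ k ih =>
      intro m h
      apply ih m
      have e : k + 1 + m + 1 = (k + m + 1) + 1 := by ring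
      rw [e, hs k, hs (k + m + 1)] at h
      exact hinj _ _ (hr.trans (hr.symm (hall k).1) (hall _).1) h
  obtain ⟨i, j, hij, h⟩ := Finite.exists_ne_map_eq_of_infinite a
  rcases Nat.lt_or_gt_of_ne hij with h1 | h1
  · obtain ⟨m, rfl⟩ := Nat.exists_eq_add_of_lt h1
    exact hne i m h
  · obtain ⟨m, rfl⟩ := Nat.exists_eq_add_of_lt h1
    exact hne j m h.symm

end MP3240M
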