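import Pool.Agent.Lib.MP_3240be_co.M64.Lef
import Pool.Agent.Lib.MP_3240be_co.H43.G0

/-!
# MP_3240be_co, Theorem M, row TRB: the choice of the edge
-/

set_option autoImplicit false

namespace MP3240M

open Finset MP3240T MP3240W

variable {n : ℕ}

/-- All edges of `J` are edges of triangles of `H`. -/
def InTri (H : SimpleGraph (Fin n)) (J : Finset (Sym2 (Fin n))) : Prop :=
  ∀ e ∈ J, ∃ a b c, e = s(a, b) ∧ H.Adj a b ∧ H.Adj b c ∧ H.Adj a c

/-- The vertex `v` is on the edge set `J`. -/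
def On {X : Type} (J : Finset (Sym2 X)) (v : X) : Prop := ∃ e ∈ J, v ∈ e

/-- The rule for the choice of the edge `x y`. -/
structure Rule (H : SimpleGraph (Fin n)) (x y : Fin n) (B₁ : Finset (Sym2 (Fin n)))
    (𝒳 : Finset (Finset (Sym2 (Fin n)))) : Prop where
  mem : B₁ ∈ 𝒳
  exy : s(x, y) ∈ B₁
  tri : ∀ B ∈ 𝒳, InTri H B
  two : ∀ B ∈ 𝒳, TwoC B
  iso : ∀ B ∈ 𝒳, ∃ σ : Equiv.Perm (Fin n), B = B₁.image (Sym2.map σ)
  off : ∀ B ∈ 𝒳, B ≠ B₁ → ¬ On B x ∧ ¬ On B y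
  ext : ∀ J, InTri H J → TwoC J → s(x, y) ∈ J → J ⊆ B₁
  cls : ∀ (J : Finset (Sym2 (Fin n))) (f : Fin n → Fin n),
    (∀ u v, On B₁ u → On B₁ v → f u = f v → u = v) → J = B₁.image (Sym2.map f) → InTri H J →
    J ∈ 𝒳

/-- Two maps which agree on the vertices of an edge set have the same image of it. -/
theorem image_congr {X Y : Type} [DecidableEq Y] {I : Finset (Sym2 X)} {f g : X → Y}
    (h : ∀ v, On I v → f v = g v) : I.image (Sym2.map f) = I.image (Sym2.map g) := by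
  classical
  apply Finset.image_congr
  intro e he
  exact Sym2.map_congr (fun v hv => h v ⟨e, he, hv⟩)

theorem trb (H : SimpleGraph (Fin n)) (htri : ∃ a b c, H.Adj a b ∧ H.Adj b c ∧ H.Adj a c) :
    ∃ x y B₁ 𝒳, Rule H x y B₁ 𝒳 := by
  classical
  obtain ⟨a₀, b₀, c₀, h0ab, h0bc, h0ac⟩ := htri
  have : Nonempty (Fin n) := ⟨a₀⟩
  have triIn : ∀ a b c, H.Adj a b → H.Adj b c → H.Adj a c →
      InTri H {s(a, b), s(b, c), s(a, c)} := by
    intro a b c h1 h2 h3 e he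
    simp only [mem_insert, mem_singleton] at he
    rcases he with rfl | rfl | rfl
    · exact ⟨a, b, c, rfl, h1, h2, h3⟩
    · exact ⟨b, c, a, rfl, h2, h3.symm, h1.symm⟩
    · exact ⟨a, c, b, rfl, h3, h2.symm, h1⟩
  -- the good edge sets, one with most edges
  set good : Finset (Sym2 (Fin n)) → Prop := fun J => InTri H J ∧ J.Nonempty ∧ TwoC J with hgood
  obtain ⟨B₀, hB₀, hB₀max⟩ : ∃ B₀, good B₀ ∧ ∀ J, good J → J.card ≤ B₀.card := by
    obtain ⟨B₀, hB₀, hmax⟩ := Finset.exists_max_image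
      ((univ : Finset (Finset (Sym2 (Fin n)))).filter good) (fun J => J.card)
      ⟨{s(a₀, b₀), s(b₀, c₀), s(a₀, c₀)}, mem_filter.2 ⟨mem_univ _,
        triIn _ _ _ h0ab h0bc h0ac, ⟨s(a₀, b₀), by simp⟩,
        tri_twoC h0ab.ne h0bc.ne h0ac.ne⟩⟩
    exact ⟨B₀, (mem_filter.1 hB₀).2, fun J hJ => hmax J (mem_filter.2 ⟨mem_univ _, hJ⟩)⟩
  set 𝒳 := (univ : Finset (Finset (Sym2 (Fin n)))).filter
    (fun B => InTri H B ∧ ∃ σ : Equiv.Perm (Fin n), B = B₀.image (Sym2.map σ)) with h𝒳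
  have hmem : ∀ B, B ∈ 𝒳 ↔ InTri H B ∧ ∃ σ : Equiv.Perm (Fin n), B = B₀.image (Sym2.map σ) := by
    intro B
    rw [h𝒳, mem_filter]
    exact ⟨fun h => h.2, fun h => ⟨mem_univ _, h⟩⟩
  have h0mem : B₀ ∈ 𝒳 := (hmem _).2 ⟨hB₀.1, Equiv.refl _, by
    simp only [Equiv.coe_refl, Sym2.map_id, image_id]⟩
  have hcard : ∀ B ∈ 𝒳, B.card = B₀.card := by
    intro B hB
    obtain ⟨-, σ, rfl⟩ := (hmem B).1 hB
    exact card_image_of_injective _ (Sym2.map.injective σ.injective)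
  have hgd : ∀ B ∈ 𝒳, good B := by
    intro B hB
    obtain ⟨h1, σ, h2⟩ := (hmem B).1 hB
    refine ⟨h1, ?_, ?_⟩
    · rw [h2]
      exact hB₀.2.1.image _
    · rw [h2]
      exact TwoC.map hB₀.2.2 _ (fun u v _ _ h => σ.injective h)
  -- a good set which shares two vertices with a member is contained in it
  have hext : ∀ B ∈ 𝒳, ∀ J, good J → ∀ u v, u ≠ v → Shares B J u → Shares B J v → J ⊆ B := by
    intro B hB J hJ u v huv hu hv
    have h1 : good (B ∪ J) := by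
      refine ⟨?_, (hgd B hB).2.1.mono subset_union_left,
        union_twoC (hgd B hB).2.2 hJ.2.2 huv hu hv⟩
      intro e he
      rcases mem_union.1 he with h | h
      · exact (hgd B hB).1 e h
      · exact hJ.1 e h
    have h2 := hB₀max _ h1
    rw [← hcard B hB] at h2
    have h3 : B = B ∪ J := eq_of_subset_of_card_le subset_union_left h2
    rw [h3]
    exact subset_union_right
  obtain ⟨B₁, hB₁, v₀, hv₀⟩ := leaf 𝒳 ⟨B₀, h0mem⟩ (fun B hB => (hgd B hB).2) (by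
    intro 𝒴 hY h2 hT
    have hsub : ∀ B ∈ 𝒴, B = 𝒴.biUnion id := by
      intro B hB
      refine eq_of_subset_of_card_le (subset_biUnion_of_mem id hB) ?_
      rw [hcard B (hY hB)]
      refine hB₀max _ ⟨?_, ?_, hT⟩
      · intro e he
        obtain ⟨C, hC, heC⟩ := mem_biUnion.1 he
        exact (hgd C (hY hC)).1 e heC
      · exact (hgd B (hY hB)).2.1.mono (subset_biUnion_of_mem id hB)
    obtain ⟨B, hB, B', hB', hne⟩ := one_lt_card.1 h2
    exact hne ((hsub B hB).trans (hsub B' hB').symm))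
  -- the edge
  obtain ⟨x, y, hxy, hx, hy⟩ : ∃ x y, s(x, y) ∈ B₁ ∧ x ≠ v₀ ∧ y ≠ v₀ := by
    obtain ⟨e, he⟩ := (hgd B₁ hB₁).2.1
    obtain ⟨a, b, c, rfl, h1, h2, h3⟩ := (hgd B₁ hB₁).1 e he
    have hsub := hext B₁ hB₁ {s(a, b), s(b, c), s(a, c)}
      ⟨triIn _ _ _ h1 h2 h3, ⟨s(a, b), by simp⟩, tri_twoC h1.ne h2.ne h3.ne⟩ a b h1.ne
      ⟨⟨_, he, Sym2.mem_mk_left _ _⟩, ⟨s(a, b), by simp, Sym2.mem_mk_left _ _⟩⟩
      ⟨⟨_, he, Sym2.mem_mk_right _ _⟩, ⟨s(a, b), by simp, Sym2.mem_mk_right _ _⟩⟩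
    by_cases ha : a = v₀
    · exact ⟨b, c, hsub (by simp), fun h => h1.ne (ha.trans h.symm),
        fun h => h3.ne (ha.trans h.symm)⟩
    · by_cases hb : b = v₀
      · exact ⟨a, c, hsub (by simp), ha, fun h => h2.ne (hb.trans h.symm)⟩
      · exact ⟨a, b, he, ha, hb⟩
  have hxyH : x ≠ y := by
    obtain ⟨a, b, c, h, h1, -, -⟩ := (hgd B₁ hB₁).1 _ hxy
    rcases Sym2.eq_iff.1 h with ⟨rfl, rfl⟩ | ⟨rfl, rfl⟩
    · exact h1.ne
    · exact h1.ne'
  obtain ⟨-, σ₁, hσ₁⟩ := (hmem B₁).1 hB₁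
  refine ⟨x, y, B₁, 𝒳, hB₁, hxy, fun B hB => (hgd B hB).1, fun B hB => (hgd B hB).2.2, ?_, ?_,
    ?_, ?_⟩
  · intro B hB
    obtain ⟨-, σ, hσ⟩ := (hmem B).1 hB
    refine ⟨σ₁.symm.trans σ, ?_⟩
    rw [hσ, hσ₁, image_image]
    apply Finset.image_congr
    intro e _
    simp only [Function.comp_apply, Sym2.map_map]
    apply Sym2.map_congr
    intro v _
    simp
  · intro B hB hne
    refine ⟨fun h => hx (hv₀ B hB hne x ⟨⟨_, hxy, Sym2.mem_mk_left _ _⟩, h⟩),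
      fun h => hy (hv₀ B hB hne y ⟨⟨_, hxy, Sym2.mem_mk_right _ _⟩, h⟩)⟩
  · intro J hJ hT hJxy
    exact hext B₁ hB₁ J ⟨hJ, ⟨_, hJxy⟩, hT⟩ x y hxyH
      ⟨⟨_, hxy, Sym2.mem_mk_left _ _⟩, ⟨_, hJxy, Sym2.mem_mk_left _ _⟩⟩
      ⟨⟨_, hxy, Sym2.mem_mk_right _ _⟩, ⟨_, hJxy, Sym2.mem_mk_right _ _⟩⟩
  · intro J f hf hJ hJt
    -- extend `f` to a permutation
    set S : Finset (Fin n) := univ.filter (fun v => On B₁ v) with hS
    obtain ⟨g, hg⟩ := Finset.exists_equiv_extend_of_card_eq (t := (univ : Finset (Fin n)))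
      (by simp) (s := S) (f := f) (subset_univ _) (by
        intro u hu v hv h
        exact hf u v (mem_filter.1 hu).2 (mem_filter.1 hv).2 h)
    set τ : Equiv.Perm (Fin n) := g.trans ⟨fun w => w.1, fun w => ⟨w, mem_univ _⟩,
      fun _ => rfl, fun _ => rfl⟩ with hτ
    have hτf : ∀ v, On B₁ v → f v = τ v := fun v hv => (hg v (mem_filter.2 ⟨mem_univ _, hv⟩)).symm
    refine (hmem J).2 ⟨hJt, σ₁.trans τ, ?_⟩
    rw [hJ, MP3240M.image_congr hτf, hσ₁, image_image]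
    apply Finset.image_congr
    intro e _
    simp only [Function.comp_apply, Sym2.map_map]
    apply Sym2.map_congr
    intro v _
    simp

end MP3240M
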