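import Pool.Agent.Lib.MP_3240be_co.M64.Defs
import Pool.Agent.Lib.MP_3240be_co.M64.Trb
import Pool.Agent.Lib.MP_3240be_co.M64.Spi

/-!
# MP_3240be_co, Theorem M, row CLO: the closure lemma
-/

set_option autoImplicit false

namespace MP3240M

open Finset MP3240T MP3240W MP3240W.Bvh

namespace Clo

variable {n N τ : ℕ}

/-! ## Distances -/

/-- The distance of a vertex from an edge set. -/
noncomputable def DS (H : SimpleGraph (Fin n)) (J : Finset (Sym2 (Fin n))) (u : Fin n) : ℕ :=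
  sInf {k | ∃ s, On J s ∧ H.dist u s = k}

/-- The distance of two edge sets. -/
noncomputable def dd (H : SimpleGraph (Fin n)) (J J' : Finset (Sym2 (Fin n))) : ℕ :=
  sInf {k | ∃ u u', On J u ∧ On J' u' ∧ H.dist u u' = k}

theorem DS_att (H : SimpleGraph (Fin n)) {J : Finset (Sym2 (Fin n))} (hJ : ∃ s, On J s)
    (u : Fin n) : ∃ s, On J s ∧ H.dist u s = DS H J u := by
  obtain ⟨s, hs⟩ := hJ
  exact Nat.sInf_mem (s := {k | ∃ s, On J s ∧ H.dist u s = k}) ⟨_, s, hs, rfl⟩

theorem DS_le (H : SimpleGraph (Fin n)) {J : Finset (Sym2 (Fin n))} {u s : Fin n} (hs : On J s) :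
    DS H J u ≤ H.dist u s :=
  Nat.sInf_le ⟨s, hs, rfl⟩

theorem dd_att (H : SimpleGraph (Fin n)) {J J' : Finset (Sym2 (Fin n))} (hJ : ∃ s, On J s)
    (hJ' : ∃ s, On J' s) : ∃ u u', On J u ∧ On J' u' ∧ H.dist u u' = dd H J J' := by
  obtain ⟨s, hs⟩ := hJ
  obtain ⟨s', hs'⟩ := hJ'
  exact Nat.sInf_mem (s := {k | ∃ u u', On J u ∧ On J' u' ∧ H.dist u u' = k})
    ⟨_, s, s', hs, hs', rfl⟩

theorem dd_le (H : SimpleGraph (Fin n)) {J J' : Finset (Sym2 (Fin n))} {u u' : Fin n}
    (hu : On J u) (hu' : On J' u') : dd H J J' ≤ H.dist u u' :=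
  Nat.sInf_le ⟨u, u', hu, hu', rfl⟩

theorem dd_le_DS (H : SimpleGraph (Fin n)) {J J' : Finset (Sym2 (Fin n))} {u : Fin n}
    (hu : On J u) (hJ' : ∃ s, On J' s) : dd H J J' ≤ DS H J' u := by
  obtain ⟨s, hs, h⟩ := DS_att H hJ' u
  rw [← h]
  exact dd_le H hu hs

theorem DS_zero (H : SimpleGraph (Fin n)) {J : Finset (Sym2 (Fin n))} {u : Fin n} (hu : On J u) :
    DS H J u = 0 := by
  have := DS_le H (u := u) hu
  rw [SimpleGraph.dist_self] at this
  omega

theorem DS_lip {H : SimpleGraph (Fin n)} (hcon : H.Connected) {J : Finset (Sym2 (Fin n))}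
    (hJ : ∃ s, On J s) {u v : Fin n} (huv : H.Adj u v) : DS H J u ≤ DS H J v + 1 := by
  obtain ⟨s, hs, h⟩ := DS_att H hJ v
  have h1 : H.dist u s ≤ H.dist u v + H.dist v s := hcon.dist_triangle
  have h2 : H.dist u v = 1 := SimpleGraph.dist_eq_one_iff_adj.2 huv
  have h3 := DS_le H (u := u) hs
  omega

theorem lip_dist {H : SimpleGraph (Fin n)} (hcon : H.Connected) (g : Fin n → ℕ)
    (hg : ∀ u v, H.Adj u v → g u ≤ g v + 1) (u v : Fin n) : g u ≤ g v + H.dist u v := by
  obtain ⟨p, hp⟩ := hcon.exists_walk_length_eq_dist u v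
  rw [← hp]
  clear hp
  induction p with
  | nil => simp
  | cons h p ih =>
    have := hg _ _ h
    rw [SimpleGraph.Walk.length_cons]
    omega

/-- The Lipschitz function. -/
noncomputable def rho (H : SimpleGraph (Fin n)) (x y : Fin n) (J : Finset (Sym2 (Fin n)))
    (β : Fin n × Fin n × Fin N) : GT n N τ → ℕ := by
  classical exact fun p => match p with
  | .inl (.inr t) => if tri t = β then DS H J t.2.2.2 else min (DS H J x) (DS H J y) + 1
  | .inl (.inl u) => if u = β.1 then DS H J x else if u = β.2.1 then DS H J y else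
      min (DS H J x) (DS H J y) + 1
  | .inr c => if c.1.1 = β.1 ∧ c.1.2.1 = β.2.1 then
      (if H.Adj x c.1.2.2 then DS H J x else DS H J y) else min (DS H J x) (DS H J y) + 1

theorem rho_lip {H : SimpleGraph (Fin n)} (hcon : H.Connected) {x y : Fin n} (hxy : H.Adj x y)
    {J : Finset (Sym2 (Fin n))} (hJ : ∃ s, On J s) (β : Fin n × Fin n × Fin N)
    (p p' : GT n N τ) (h : tg H x y p p') :
    rho H x y J β p ≤ rho H x y J β p' + 1 := by
  classical
  have hx := DS_lip hcon hJ hxy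
  have hy := DS_lip hcon hJ hxy.symm
  -- the value of a free vertex or a twin
  have far : ∀ t : Slot n N, tri t ≠ β → rho (τ := τ) H x y J β (.inl (.inr t)) =
      min (DS H J x) (DS H J y) + 1 := by
    intro t ht
    simp only [rho, if_neg ht]
  have near : ∀ t : Slot n N, tri t = β → rho (τ := τ) H x y J β (.inl (.inr t)) =
      DS H J t.2.2.2 := by
    intro t ht
    simp only [rho, if_pos ht]
  have vz : ∀ u : Fin n, rho (N := N) (τ := τ) H x y J β (.inl (.inl u)) = DS H J x ∨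
      rho (N := N) (τ := τ) H x y J β (.inl (.inl u)) = DS H J y ∨
      rho (N := N) (τ := τ) H x y J β (.inl (.inl u)) = min (DS H J x) (DS H J y) + 1 := by
    intro u
    simp only [rho]
    split_ifs
    · exact Or.inl rfl
    · exact Or.inr (Or.inl rfl)
    · exact Or.inr (Or.inr rfl)
  have vc : ∀ c, rho (N := N) (τ := τ) H x y J β (.inr c) = DS H J x ∨
      rho (N := N) (τ := τ) H x y J β (.inr c) = DS H J y ∨
      rho (N := N) (τ := τ) H x y J β (.inr c) = min (DS H J x) (DS H J y) + 1 := by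
    intro c
    simp only [rho]
    split_ifs
    · exact Or.inl rfl
    · exact Or.inr (Or.inl rfl)
    · exact Or.inr (Or.inr rfl)
  -- a free vertex and a slot
  have zs : ∀ (u : Fin n) (t : Slot n N), zAdj H x y u t →
      rho (τ := τ) H x y J β (.inl (.inl u)) ≤ rho (τ := τ) H x y J β (.inl (.inr t)) + 1 ∧
      rho (τ := τ) H x y J β (.inl (.inr t)) ≤ rho (τ := τ) H x y J β (.inl (.inl u)) + 1 := by
    intro u t hz
    by_cases ht : tri t = β
    · rw [near t ht]
      have hb1 : t.1 = β.1 := by rw [← ht]; rfl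
      have hb2 : t.2.1 = β.2.1 := by rw [← ht]; rfl
      rcases hz.2.2 with ⟨h1, h2⟩ | ⟨h1, h2⟩
      · have e : rho (N := N) (τ := τ) H x y J β (.inl (.inl u)) = DS H J x := by
          simp only [rho]
          rw [if_pos (h1.trans hb1)]
        rw [e]
        exact ⟨DS_lip hcon hJ h2, DS_lip hcon hJ h2.symm⟩
      · have e : rho (N := N) (τ := τ) H x y J β (.inl (.inl u)) = DS H J y := by
          have h3 : u ≠ β.1 := by
            intro h4
            have h5 := hz.1
            rw [hb1, ← h4, h1] at h5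
            exact h5.ne rfl
          simp only [rho]
          rw [if_neg h3, if_pos (h1.trans hb2)]
        rw [e]
        exact ⟨DS_lip hcon hJ h2, DS_lip hcon hJ h2.symm⟩
    · rw [far t ht]
      have := vz u
      omega
  -- a twin and a slot
  have cs : ∀ (c : (Fin n × Fin n × Fin n) × Fin τ) (t : Slot n N), twAdj H x y c.1 t →
      rho (τ := τ) H x y J β (.inr c) ≤ rho (τ := τ) H x y J β (.inl (.inr t)) + 1 ∧
      rho (τ := τ) H x y J β (.inl (.inr t)) ≤ rho (τ := τ) H x y J β (.inr c) + 1 := by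
    intro c t hz
    obtain ⟨e1, e2, e3, v, hv⟩ := hz
    by_cases ht : tri t = β
    · rw [near t ht]
      have hb1 : t.1 = β.1 := by rw [← ht]; rfl
      have hb2 : t.2.1 = β.2.1 := by rw [← ht]; rfl
      by_cases hxw : H.Adj x t.2.2.2
      · have e : rho (N := N) (τ := τ) H x y J β (.inr c) = DS H J x := by
          simp only [rho]
          rw [if_pos ⟨e1 ▸ hb1, e2 ▸ hb2⟩, if_pos (e3 ▸ hxw)]
        rw [e]
        exact ⟨DS_lip hcon hJ hxw, DS_lip hcon hJ hxw.symm⟩
      · have e : rho (N := N) (τ := τ) H x y J β (.inr c) = DS H J y := by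
          simp only [rho]
          rw [if_pos ⟨e1 ▸ hb1, e2 ▸ hb2⟩, if_neg (e3 ▸ hxw)]
        have hyw : H.Adj y t.2.2.2 := by
          rcases hv.2.2 with ⟨-, h1⟩ | ⟨-, h1⟩
          · exact absurd h1 hxw
          · exact h1
        rw [e]
        exact ⟨DS_lip hcon hJ hyw, DS_lip hcon hJ hyw.symm⟩
    · rw [far t ht]
      have := vc c
      omega
  rcases p with (u | t) | c <;> rcases p' with (u' | t') | c'
  · exact (h : False).elim
  · exact (zs u t' h).1
  · exact (h : False).elim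
  · exact (zs u' t h).2
  · have h1 : blobAdj H x y t t' := h
    have h2 : tri t = tri t' := by
      simp only [tri, h1.1, h1.2.1, h1.2.2.1]
    by_cases ht : tri t = β
    · rw [near t ht, near t' (h2 ▸ ht)]
      exact DS_lip hcon hJ h1.2.2.2.2.2
    · rw [far t ht, far t' (h2 ▸ ht)]
      omega
  · exact (cs c' t h).2
  · exact (h : False).elim
  · exact (cs c t' h).1
  · exact (h : False).elim

/-! ## The image in one blob -/

section

variable (H : SimpleGraph (Fin n)) (x y : Fin n) (F : Fin n → GT n N τ)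

/-- The projection to `H` of the blob `β`. -/
noncomputable def pr (β : Fin n × Fin n × Fin N) (v : Fin n) : Fin n := by
  classical exact match F v with
  | .inl (.inr t) => t.2.2.2
  | .inl (.inl u) => if u = β.1 then x else y
  | .inr _ => x

/-- The image of `v` is a slot of the blob `β`. -/
def sl (β : Fin n × Fin n × Fin N) (v : Fin n) : Prop :=
  ∃ t, F v = .inl (.inr t) ∧ tri t = β ∧ inner x y t

/-- The image of `v` is a slot of the blob `β` or one of its two roots. -/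
def gd (β : Fin n × Fin n × Fin N) (v : Fin n) : Prop :=
  sl x y F β v ∨ ((F v = .inl (.inl β.1) ∨ F v = .inl (.inl β.2.1)) ∧ H.Adj β.1 β.2.1)

variable {H x y F}

theorem pr_slot {β : Fin n × Fin n × Fin N} {v : Fin n} {t : Slot n N}
    (h : F v = .inl (.inr t)) : pr x y F β v = t.2.2.2 := by
  simp only [pr, h]

theorem pr_one {β : Fin n × Fin n × Fin N} {v : Fin n}
    (h : F v = .inl (.inl β.1)) : pr x y F β v = x := by
  simp only [pr, h, if_true]

theorem pr_two {β : Fin n × Fin n × Fin N} {v : Fin n} (hb : H.Adj β.1 β.2.1)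
    (h : F v = .inl (.inl β.2.1)) : pr x y F β v = y := by
  simp only [pr, h]
  rw [if_neg hb.ne']

theorem pr_inj (hxy : H.Adj x y) (hF : Function.Injective F) {β : Fin n × Fin n × Fin N}
    {u v : Fin n} (hu : gd H x y F β u) (hv : gd H x y F β v)
    (huv : pr x y F β u = pr x y F β v) : u = v := by
  rcases hu with ⟨t, ht, htb, hin⟩ | ⟨hu, hb⟩
  · rcases hv with ⟨t', ht', htb', hin'⟩ | ⟨hv, hb⟩
    · rw [pr_slot ht, pr_slot ht'] at huv
      apply hF
      rw [ht, ht', slot_ext (htb.trans htb'.symm) huv]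
    · exfalso
      rcases hv with hv | hv
      · rw [pr_slot ht, pr_one hv] at huv
        exact hin.1 huv
      · rw [pr_slot ht, pr_two hb hv] at huv
        exact hin.2 huv
  · rcases hv with ⟨t', ht', htb', hin'⟩ | ⟨hv, -⟩
    · exfalso
      rcases hu with hu | hu
      · rw [pr_slot ht', pr_one hu] at huv
        exact hin'.1 huv.symm
      · rw [pr_slot ht', pr_two hb hu] at huv
        exact hin'.2 huv.symm
    · rcases hu with hu | hu <;> rcases hv with hv | hv
      · exact hF (hu.trans hv.symm)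
      · rw [pr_one hu, pr_two hb hv] at huv
        exact absurd huv hxy.ne
      · rw [pr_two hb hu, pr_one hv] at huv
        exact absurd huv.symm hxy.ne
      · exact hF (hu.trans hv.symm)

/-- A vertex of a triangle is not mapped to a twin. -/
theorem no_twin (hadj : ∀ i j, H.Adj i j → tg H x y (F i) (F j)) {a b c : Fin n}
    (h1 : H.Adj a b) (h2 : H.Adj b c) (h3 : H.Adj a c) : ∃ p, F a = .inl p := by
  rcases ha : F a with p | s
  · exact ⟨p, rfl⟩
  · exfalso
    have e1 := hadj a b h1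
    have e2 := hadj b c h2
    have e3 := hadj a c h3
    rw [ha] at e1 e3
    rcases hb : F b with (u | t) | s'
    · rw [hb] at e1
      exact e1
    · rcases hc : F c with (u' | t') | s''
      · rw [hc] at e3
        exact e3
      · rw [hb] at e1 e2
        rw [hc] at e2 e3
        have f1 : twAdj H x y s.1 t := e1
        have f3 : twAdj H x y s.1 t' := e3
        have f2 : blobAdj H x y t t' := e2
        have g := f2.2.2.2.2.2
        rw [f1.2.2.1, f3.2.2.1] at g
        exact g.ne rfl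
      · rw [hc] at e3
        exact e3
    · rw [hb] at e1
      exact e1

/-- The edges of triangles are mapped to edges of the gadget without twins. -/
theorem tri_edge (hadj : ∀ i j, H.Adj i j → tg H x y (F i) (F j)) {a b c : Fin n}
    (h1 : H.Adj a b) (h2 : H.Adj b c) (h3 : H.Adj a c) :
    ∃ p p', F a = .inl p ∧ F b = .inl p' ∧ gg H x y p p' := by
  obtain ⟨p, hp⟩ := no_twin hadj h1 h2 h3
  obtain ⟨p', hp'⟩ := no_twin hadj h1.symm h3 h2
  have e := hadj a b h1
  rw [hp, hp'] at e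
  exact ⟨p, p', hp, hp', e⟩

/-- An edge of a triangle with an end in the blob `β`. -/
theorem step (hadj : ∀ i j, H.Adj i j → tg H x y (F i) (F j)) {a b c : Fin n}
    (h1 : H.Adj a b) (h2 : H.Adj b c) (h3 : H.Adj a c) {β : Fin n × Fin n × Fin N}
    {t : Slot n N} (ht : F a = .inl (.inr t)) (htb : tri t = β) :
    sl x y F β a ∧ gd H x y F β b ∧ H.Adj (pr x y F β a) (pr x y F β b) := by
  obtain ⟨p, p', hp, hp', hg⟩ := tri_edge hadj h1 h2 h3
  have hb1 : t.1 = β.1 := by rw [← htb]; rfl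
  have hb2 : t.2.1 = β.2.1 := by rw [← htb]; rfl
  rw [ht] at hp
  have hpt : p = .inr t := (Sum.inl_injective hp).symm
  subst hpt
  rcases p' with u | t'
  · have hz : zAdj H x y u t := hg
    have hb : H.Adj β.1 β.2.1 := by
      rw [← hb1, ← hb2]
      exact hz.1
    refine ⟨⟨t, ht, htb, hz.2.1⟩, ?_⟩
    rcases hz.2.2 with ⟨hu, hw⟩ | ⟨hu, hw⟩
    · have hF' : F b = .inl (.inl β.1) := by rw [hp', hu, hb1]
      refine ⟨Or.inr ⟨Or.inl hF', hb⟩, ?_⟩
      rw [pr_slot ht, pr_one hF']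
      exact hw.symm
    · have hF' : F b = .inl (.inl β.2.1) := by rw [hp', hu, hb2]
      refine ⟨Or.inr ⟨Or.inr hF', hb⟩, ?_⟩
      rw [pr_slot ht, pr_two hb hF']
      exact hw.symm
  · have hz : blobAdj H x y t t' := hg
    refine ⟨⟨t, ht, htb, hz.2.2.2.1⟩, Or.inl ⟨t', hp', ?_, hz.2.2.2.2.1⟩, ?_⟩
    · rw [← htb]
      simp only [tri, hz.1, hz.2.1, hz.2.2.1]
    · rw [pr_slot ht, pr_slot hp']
      exact hz.2.2.2.2.2

/-- Every edge of a triangle has an end in a blob. -/
theorem exists_slot (hadj : ∀ i j, H.Adj i j → tg H x y (F i) (F j)) {a b c : Fin n}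
    (h1 : H.Adj a b) (h2 : H.Adj b c) (h3 : H.Adj a c) :
    (∃ t, F a = .inl (.inr t)) ∨ ∃ t, F b = .inl (.inr t) := by
  obtain ⟨p, p', hp, hp', hg⟩ := tri_edge hadj h1 h2 h3
  rcases p with u | t
  · rcases p' with u' | t'
    · exact (hg : False).elim
    · exact Or.inr ⟨t', hp'⟩
  · exact Or.inl ⟨t, hp⟩

/-- The image of a triangle with a vertex in the blob `β`. -/
theorem tri_image (hadj : ∀ i j, H.Adj i j → tg H x y (F i) (F j)) {a b c : Fin n}
    (h1 : H.Adj a b) (h2 : H.Adj b c) (h3 : H.Adj a c) {β : Fin n × Fin n × Fin N}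
    {t : Slot n N} (ht : F a = .inl (.inr t)) (htb : tri t = β) :
    H.Adj (pr x y F β a) (pr x y F β b) ∧ H.Adj (pr x y F β b) (pr x y F β c) ∧
      H.Adj (pr x y F β a) (pr x y F β c) := by
  have e1 := step hadj h1 h2 h3 ht htb
  have e3 := step hadj h3 h2.symm h1 ht htb
  refine ⟨e1.2.2, ?_, e3.2.2⟩
  rcases e1.2.1 with ⟨t', ht', htb', -⟩ | ⟨hb, -⟩
  · exact (step hadj h2 h3.symm h1.symm ht' htb').2.2
  · rcases e3.2.1 with ⟨t', ht', htb', -⟩ | ⟨hc, -⟩
    · exact (step hadj h2.symm h1.symm h3.symm ht' htb').2.2.symm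
    · exfalso
      have e2 := hadj b c h2
      rcases hb with hb | hb <;> rcases hc with hc | hc <;> rw [hb, hc] at e2 <;> exact e2

/-- The edge has an end in the blob `β`. -/
def PP (F : Fin n → GT n N τ) (β : Fin n × Fin n × Fin N) (e : Sym2 (Fin n)) : Prop :=
  ∃ i t, i ∈ e ∧ F i = .inl (.inr t) ∧ tri t = β

/-- A set of edges of triangles, all with an end in the blob `β`. -/
theorem image_facts (hadj : ∀ i j, H.Adj i j → tg H x y (F i) (F j))
    {J : Finset (Sym2 (Fin n))} (hJ : InTri H J) {β : Fin n × Fin n × Fin N}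
    (hP : ∀ e ∈ J, PP F β e) :
    (∀ v, On J v → gd H x y F β v) ∧ InTri H (J.image (Sym2.map (pr x y F β))) ∧
      ∀ e ∈ J, e.map (pr x y F β) ≠ s(x, y) := by
  classical
  have key : ∀ e ∈ J, ∃ a b c t, e = s(a, b) ∧ H.Adj a b ∧ H.Adj b c ∧ H.Adj a c ∧
      F a = .inl (.inr t) ∧ tri t = β := by
    intro e he
    obtain ⟨a, b, c, rfl, h1, h2, h3⟩ := hJ e he
    obtain ⟨i, t, hi, hit, htb⟩ := hP _ he
    rcases Sym2.mem_iff.1 hi with rfl | rfl
    · exact ⟨i, b, c, t, rfl, h1, h2, h3, hit, htb⟩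
    · exact ⟨i, a, c, t, Sym2.eq_swap, h1.symm, h3, h2, hit, htb⟩
  refine ⟨?_, ?_, ?_⟩
  · rintro v ⟨e, he, hv⟩
    obtain ⟨a, b, c, t, rfl, h1, h2, h3, ht, htb⟩ := key e he
    have e1 := step hadj h1 h2 h3 ht htb
    rcases Sym2.mem_iff.1 hv with rfl | rfl
    · exact Or.inl e1.1
    · exact e1.2.1
  · intro e' he'
    obtain ⟨e, he, rfl⟩ := mem_image.1 he'
    obtain ⟨a, b, c, t, rfl, h1, h2, h3, ht, htb⟩ := key e he
    obtain ⟨g1, g2, g3⟩ := tri_image hadj h1 h2 h3 ht htb
    exact ⟨_, _, _, Sym2.map_mk _ _ _, g1, g2, g3⟩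
  · intro e he
    obtain ⟨a, b, c, t, rfl, h1, h2, h3, ht, htb⟩ := key e he
    obtain ⟨t', ht', -, hin⟩ := (step hadj h1 h2 h3 ht htb).1
    rw [Sym2.map_mk, pr_slot ht']
    intro h
    have h4 : t'.2.2.2 ∈ s(x, y) := by
      rw [← h]
      exact Sym2.mem_mk_left _ _
    rcases Sym2.mem_iff.1 h4 with h5 | h5
    · exact hin.1 h5
    · exact hin.2 h5

/-- Every member lies in one blob. -/
theorem one_blob (hG : G0Statement) (hadj : ∀ i j, H.Adj i j → tg H x y (F i) (F j))
    (hF : Function.Injective F) (hxy : H.Adj x y) {B₁ : Finset (Sym2 (Fin n))}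
    {𝒳 : Finset (Finset (Sym2 (Fin n)))} (R : Rule H x y B₁ 𝒳) {B : Finset (Sym2 (Fin n))}
    (hB : B ∈ 𝒳) : ∃ β : Fin n × Fin n × Fin N, ∀ e ∈ B, PP F β e := by
  classical
  obtain ⟨σ, hσ⟩ := R.iso B hB
  have he0 : s(σ x, σ y) ∈ B := by
    rw [hσ]
    exact mem_image.2 ⟨s(x, y), R.exy, Sym2.map_mk _ _ _⟩
  have hBH : ∀ e ∈ B, e ∈ ed H := by
    intro e he
    obtain ⟨a, b, c, rfl, h1, -, -⟩ := R.tri B hB e he
    exact mem_ed.2 h1
  obtain ⟨β, hβ⟩ : ∃ β : Fin n × Fin n × Fin N, PP F β s(σ x, σ y) := by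
    obtain ⟨a, b, c, h, h1, h2, h3⟩ := R.tri B hB _ he0
    rcases exists_slot hadj h1 h2 h3 with ⟨t, ht⟩ | ⟨t, ht⟩
    · exact ⟨tri t, a, t, by rw [h]; exact Sym2.mem_mk_left _ _, ht, rfl⟩
    · exact ⟨tri t, b, t, by rw [h]; exact Sym2.mem_mk_right _ _, ht, rfl⟩
  refine ⟨β, ?_⟩
  set D := B.filter (fun e => PP F β e) with hD
  set D' := B.filter (fun e => ¬ PP F β e) with hD'
  by_contra hcon
  have hne : D'.Nonempty := by
    push Not at hcon
    obtain ⟨e, he, he'⟩ := hcon
    exact ⟨e, mem_filter.2 ⟨he, he'⟩⟩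
  have hdis : Disjoint D D' := disjoint_filter_filter_not _ _ _
  have hcov : ∀ e, e ∈ B ↔ e ∈ D ∨ e ∈ D' := by
    intro e
    simp only [hD, hD', mem_filter]
    by_cases he : PP F β e <;> simp [he]
  have heD : s(σ x, σ y) ∈ D := mem_filter.2 ⟨he0, hβ⟩
  have hDtri : InTri H D := fun e he => R.tri B hB e (mem_filter.1 he).1
  obtain ⟨f1, f2, f3⟩ := image_facts hadj hDtri (fun e he => (mem_filter.1 he).2)
  have hsh : ∀ w, Shares D D' w → (F w = .inl (.inl β.1) ∨ F w = .inl (.inl β.2.1)) ∧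
      H.Adj β.1 β.2.1 := by
    rintro w ⟨hw1, e, he, hwe⟩
    rcases f1 w hw1 with ⟨t, ht, htb, -⟩ | h1
    · exact absurd ⟨w, t, hwe, ht, htb⟩ (mem_filter.1 he).2
    · exact h1
  obtain ⟨s, t, hst, hs, ht⟩ := R.two B hB D D' ⟨_, heD⟩ hne hdis hcov
  have fin : ∀ s t : Fin n, F s = .inl (.inl β.1) → F t = .inl (.inl β.2.1) →
      Shares D D' s → Shares D D' t → H.Adj β.1 β.2.1 → False := by
    intro s t hs1 ht1 hs ht hb
    have hnot : ¬ H.Adj s t := by
      intro h
      have h1 := hadj s t h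
      rw [hs1, ht1] at h1
      exact h1
    have hsh' : ∀ v, Shares D D' v → v = s ∨ v = t := by
      intro w hw
      rcases (hsh w hw).1 with h1 | h1
      · exact Or.inl (hF (h1.trans hs1.symm))
      · exact Or.inr (hF (h1.trans ht1.symm))
    have hstD : s(s, t) ∉ D := fun h => hnot (mem_ed.1 (hBH _ (mem_filter.1 h).1))
    have hT1 := (TwoC.line (R.two B hB) hdis hcov hne hstD hsh').map (pr x y F β) (by
      have hgd' : ∀ u, (∃ e ∈ insert s(s, t) D, u ∈ e) → gd H x y F β u := by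
        rintro u ⟨e, he, hue⟩
        rcases mem_insert.1 he with rfl | he
        · rcases Sym2.mem_iff.1 hue with rfl | rfl
          · exact f1 _ hs.1
          · exact f1 _ ht.1
        · exact f1 _ ⟨e, he, hue⟩
      intro u v hu hv huv
      exact pr_inj hxy hF (hgd' u hu) (hgd' v hv) huv)
    have himg : (insert s(s, t) D).image (Sym2.map (pr x y F β)) =
        insert s(x, y) (D.image (Sym2.map (pr x y F β))) := by
      rw [image_insert, Sym2.map_mk, pr_one hs1, pr_two hb ht1]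
    rw [himg] at hT1
    have hsub := R.ext _ (by
      intro e he
      rcases mem_insert.1 he with rfl | he
      · exact R.tri B₁ R.mem _ R.exy
      · exact f2 e he) hT1 (mem_insert_self _ _)
    -- the graph with the edge set `B`
    have hed : ∀ e, e ∈ ed (SimpleGraph.fromEdgeSet (B : Set (Sym2 (Fin n)))) ↔ e ∈ B := by
      intro e
      induction e using Sym2.ind with
      | _ a b =>
        rw [mem_ed, SimpleGraph.fromEdgeSet_adj, mem_coe]
        exact ⟨fun h => h.1, fun h => ⟨h, (mem_ed.1 (hBH _ h)).ne⟩⟩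
    have hedB : ed (SimpleGraph.fromEdgeSet (B : Set (Sym2 (Fin n)))) = B := by
      ext e
      exact hed e
    refine hG n (SimpleGraph.fromEdgeSet (B : Set (Sym2 (Fin n)))) D D' s(σ x, σ y) s t
      (fun v => σ (pr x y F β v)) (by rw [hedB]; exact R.two B hB) hdis
      (by rw [hedB]; exact hcov) heD hne ?_ hsh' ?_ ?_ ?_
    · intro h
      rw [SimpleGraph.fromEdgeSet_adj] at h
      exact hnot (mem_ed.1 (hBH _ h.1))
    · intro u v hu hv huv
      exact pr_inj hxy hF (f1 u hu) (f1 v hv) (σ.injective huv)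
    · intro e he
      have h1 : e.map (fun v => σ (pr x y F β v)) = (e.map (pr x y F β)).map σ := by
        rw [Sym2.map_map]
        rfl
      rw [h1]
      refine ⟨?_, ?_⟩
      · rw [hed, hσ]
        exact mem_image_of_mem _ (hsub (mem_insert_of_mem (mem_image_of_mem _ he)))
      · intro h2
        apply f3 e he
        apply Sym2.map.injective σ.injective
        rw [h2, Sym2.map_mk]
    · rw [pr_one hs1, pr_two hb ht1]
  obtain ⟨hs1, hb⟩ := hsh s hs
  obtain ⟨ht1, -⟩ := hsh t ht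
  rcases hs1 with hs1 | hs1 <;> rcases ht1 with ht1 | ht1
  · exact hst (hF (hs1.trans ht1.symm))
  · exact fin s t hs1 ht1 hs ht hb
  · exact fin t s ht1 hs1 ht hs hb
  · exact hst (hF (hs1.trans ht1.symm))

end

/-- The gadget with twins of an edge chosen by the rule does not contain `H`. -/
theorem rule_free (hG : G0Statement) {H : SimpleGraph (Fin n)} {x y : Fin n}
    (hcon : H.Connected) {B₁ : Finset (Sym2 (Fin n))}
    {𝒳 : Finset (Finset (Sym2 (Fin n)))} (R : Rule H x y B₁ 𝒳) : TwinFree H x y := by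
  classical
  intro N τ F hF hadj
  have hxy : H.Adj x y := by
    obtain ⟨a, b, c, h, h1, -, -⟩ := R.tri B₁ R.mem _ R.exy
    exact mem_ed.1 (by rw [h]; exact mem_ed.2 h1)
  have hblob : ∀ B : {B // B ∈ 𝒳}, ∃ β : Fin n × Fin n × Fin N, ∀ e ∈ B.1, PP F β e :=
    fun B => one_blob hG hadj hF hxy R B.2
  choose β hβ using hblob
  have facts := fun B : {B // B ∈ 𝒳} => image_facts hadj (R.tri B.1 B.2) (hβ B)
  -- the map on the members
  have hΨ : ∀ B : {B // B ∈ 𝒳}, B.1.image (Sym2.map (pr x y F (β B))) ∈ 𝒳 := by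
    intro B
    obtain ⟨σ, hσ⟩ := R.iso B.1 B.2
    refine R.cls _ (fun v => pr x y F (β B) (σ v)) ?_ ?_ (facts B).2.1
    · intro u v hu hv huv
      have hon : ∀ w, On B₁ w → On B.1 (σ w) := by
        rintro w ⟨e, he, hw⟩
        rw [hσ]
        exact ⟨e.map σ, mem_image_of_mem _ he, Sym2.mem_map.2 ⟨w, hw, rfl⟩⟩
      exact σ.injective (pr_inj hxy hF ((facts B).1 _ (hon u hu)) ((facts B).1 _ (hon v hv)) huv)
    · have h1 : B.1.image (Sym2.map (pr x y F (β B))) =
          (B₁.image (Sym2.map σ)).image (Sym2.map (pr x y F (β B))) := by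
        rw [← hσ]
      rw [h1, image_image]
      apply Finset.image_congr
      intro e _
      simp only [Function.comp_apply, Sym2.map_map]
  set Ψ : {B // B ∈ 𝒳} → {B // B ∈ 𝒳} := fun B => ⟨_, hΨ B⟩ with hΨdef
  have hΨ1 : ∀ B, Ψ B ≠ ⟨B₁, R.mem⟩ := by
    intro B h
    have h1 : s(x, y) ∈ (Ψ B).1 := by
      rw [h]
      exact R.exy
    obtain ⟨e, he, hee⟩ := mem_image.1 h1
    exact (facts B).2.2 e he hee
  have hoff : ∀ B, ¬ On (Ψ B).1 x ∧ ¬ On (Ψ B).1 y := by
    intro B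
    refine R.off _ (Ψ B).2 (fun h => hΨ1 B (Subtype.ext h))
  have honΨ : ∀ B : {B // B ∈ 𝒳}, ∀ v, On B.1 v → On (Ψ B).1 (pr x y F (β B) v) := by
    rintro B v ⟨e, he, hv⟩
    exact ⟨_, mem_image_of_mem _ he, Sym2.mem_map.2 ⟨v, hv, rfl⟩⟩
  have hslot : ∀ B : {B // B ∈ 𝒳}, ∀ v, On B.1 v → ∃ t : Slot n N, F v = .inl (.inr t) ∧
      tri t = β B ∧ pr x y F (β B) v = t.2.2.2 := by
    intro B v hv
    have h1 := honΨ B v hv
    rcases (facts B).1 v hv with ⟨t, ht, htb, -⟩ | ⟨h2 | h2, hb⟩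
    · exact ⟨t, ht, htb, pr_slot ht⟩
    · rw [pr_one h2] at h1
      exact absurd h1 (hoff B).1
    · rw [pr_two hb h2] at h1
      exact absurd h1 (hoff B).2
  have hne : ∀ B : {B // B ∈ 𝒳}, ∃ v, On B.1 v := by
    intro B
    obtain ⟨σ, hσ⟩ := R.iso B.1 B.2
    refine ⟨σ x, s(σ x, σ y), ?_, Sym2.mem_mk_left _ _⟩
    rw [hσ]
    exact mem_image.2 ⟨s(x, y), R.exy, Sym2.map_mk _ _ _⟩
  have hox : On B₁ x := ⟨_, R.exy, Sym2.mem_mk_left _ _⟩
  have hoy : On B₁ y := ⟨_, R.exy, Sym2.mem_mk_right _ _⟩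
  -- values of the Lipschitz function
  have rin : ∀ (B : {B // B ∈ 𝒳}) (J : Finset (Sym2 (Fin n))) (v : Fin n), On B.1 v →
      rho H x y J (β B) (F v) = DS H J (pr x y F (β B) v) := by
    intro B J v hv
    obtain ⟨t, ht, htb, hp⟩ := hslot B v hv
    rw [ht, hp]
    simp only [rho]
    rw [if_pos htb]
  have rout : ∀ (B B' : {B // B ∈ 𝒳}) (J : Finset (Sym2 (Fin n))) (v : Fin n), β B ≠ β B' →
      On B'.1 v → rho H x y J (β B) (F v) = min (DS H J x) (DS H J y) + 1 := by
    intro B B' J v hne hv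
    obtain ⟨t, ht, htb, hp⟩ := hslot B' v hv
    rw [ht]
    simp only [rho]
    rw [if_neg (fun h => hne (h.symm.trans htb))]
  have rl : ∀ (J : Finset (Sym2 (Fin n))) (γ : Fin n × Fin n × Fin N) (u v : Fin n),
      (∃ s, On J s) → rho H x y J γ (F u) ≤ rho H x y J γ (F v) + H.dist u v := by
    intro J γ u v hJ
    exact lip_dist hcon (fun w => rho H x y J γ (F w))
      (fun a b hab => rho_lip hcon hxy hJ γ _ _ (hadj a b hab)) u v
  refine spider (X := {B // B ∈ 𝒳}) ⟨B₁, R.mem⟩ Ψ hΨ1 (fun B B' => β B = β B')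
    ⟨fun _ => rfl, fun h => h.symm, fun h h' => h.trans h'⟩ ?_
    (fun B B' => dd H B.1 B'.1) (fun B => min (DS H B.1 x) (DS H B.1 y)) ?_ ?_ ?_
  · -- injectivity
    have half : ∀ B B' : {B // B ∈ 𝒳}, β B = β B' → Ψ B = Ψ B' → B.1 ⊆ B'.1 := by
      intro B B' hbb hpp e he
      have h1 : e.map (pr x y F (β B)) ∈ (Ψ B').1 := by
        rw [← hpp]
        exact mem_image_of_mem _ he
      obtain ⟨e', he', hee⟩ := mem_image.1 h1
      rw [← hbb] at hee
      have h2 : e' = e := by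
        refine map_inj_of (pr x y F (β B)) {v | gd H x y F (β B) v}
          (fun u hu v hv h => pr_inj hxy hF hu hv h) e' e ?_ ?_ hee
        · intro v hv
          have := (facts B').1 v ⟨e', he', hv⟩
          rw [← hbb] at this
          exact this
        · intro v hv
          exact (facts B).1 v ⟨e, he, hv⟩
      rw [← h2]
      exact he'
    intro B B' hbb hpp
    exact Subtype.ext (Subset.antisymm (half B B' hbb hpp) (half B' B hbb.symm hpp.symm))
  · intro B B' hbb
    obtain ⟨u, u', hu, hu', hd⟩ := dd_att H (hne B) (hne B')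
    have h1 := rl (Ψ B').1 (β B') u u' (hne _)
    rw [rin B' _ u' hu', DS_zero H (honΨ B' u' hu')] at h1
    have h2 := rin B (Ψ B').1 u hu
    rw [hbb] at h2
    rw [h2] at h1
    have h3 := honΨ B u hu
    rw [hbb] at h3
    have h4 := dd_le_DS H h3 (hne (Ψ B'))
    show dd H (Ψ B).1 (Ψ B').1 ≤ dd H B.1 B'.1
    omega
  · intro B B' hbb
    obtain ⟨u, u', hu, hu', hd⟩ := dd_att H (hne B) (hne B')
    have h1 := rl (Ψ B).1 (β B) u' u (hne _)
    rw [rin B _ u hu, DS_zero H (honΨ B u hu), rout B B' _ u' hbb hu'] at h1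
    rw [SimpleGraph.dist_comm] at h1
    show min (DS H (Ψ B).1 x) (DS H (Ψ B).1 y) < dd H B.1 B'.1
    omega
  · intro B
    show dd H B₁ B.1 ≤ min (DS H B.1 x) (DS H B.1 y)
    exact le_min (dd_le_DS H hox (hne B)) (dd_le_DS H hoy (hne B))

end Clo

/-- Row CLO. -/
theorem clo_proof (hG : G0Statement) : CloStatement := by
  intro n H _ hcon htri
  obtain ⟨x, y, B₁, 𝒳, R⟩ := trb H htri
  refine ⟨x, y, ?_, Clo.rule_free hG hcon R⟩
  obtain ⟨a, b, c, h, h1, -, -⟩ := R.tri B₁ R.mem _ R.exy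
  exact mem_ed.1 (by rw [h]; exact mem_ed.2 h1)

/-- The closure lemma. -/
theorem clo_main : CloStatement := clo_proof g0_proof

end MP3240M
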