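import Pool.Agent.Lib.MP_3240be_co.M64.Trb

/-!
# MP_3240be_co, general closure lemma: critical edge sets and the choice of the edge
-/

set_option autoImplicit false

namespace MP3240M

open Finset MP3240T MP3240W

variable {n : ℕ}

/-- The edge set is `K`-colourable. -/
def Col (K : ℕ) (J : Finset (Sym2 (Fin n))) : Prop :=
  ∃ κ : Fin n → Fin K, ∀ a b, s(a, b) ∈ J → κ a ≠ κ b

/-- The vertices of an edge set. -/
noncomputable def vs (J : Finset (Sym2 (Fin n))) : Finset (Fin n) := by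
  classical exact univ.filter (fun v => On J v)

theorem mem_vs {J : Finset (Sym2 (Fin n))} {v : Fin n} : v ∈ vs J ↔ On J v := by
  classical
  simp [vs]

/-- An edge set of `H` which is not `K`-colourable, with `m` vertices and `l` edges. -/
structure Crit (H : SimpleGraph (Fin n)) (K m l : ℕ) (J : Finset (Sym2 (Fin n))) : Prop where
  sub : ∀ e ∈ J, e ∈ ed H
  ncol : ¬ Col K J
  cv : (vs J).card = m
  ce : J.card = l

/-- `m` is the least number of vertices, and then `l` the least number of edges, of an edge set of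
`H` which is not `K`-colourable. -/
def Least (H : SimpleGraph (Fin n)) (K m l : ℕ) : Prop :=
  ∀ J : Finset (Sym2 (Fin n)), (∀ e ∈ J, e ∈ ed H) → ¬ Col K J →
    m ≤ (vs J).card ∧ ((vs J).card = m → l ≤ J.card)

theorem exists_crit (H : SimpleGraph (Fin n)) (K : ℕ) (h : ¬ Col K (ed H)) :
    ∃ m l J, Crit H K m l J ∧ Least H K m l := by
  classical
  set S := (univ : Finset (Finset (Sym2 (Fin n)))).filter
    (fun J => (∀ e ∈ J, e ∈ ed H) ∧ ¬ Col K J) with hS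
  obtain ⟨J₀, hJ₀, hmin₀⟩ := exists_min_image S (fun J => (vs J).card)
    ⟨ed H, mem_filter.2 ⟨mem_univ _, fun _ he => he, h⟩⟩
  obtain ⟨J₁, hJ₁, hmin₁⟩ := exists_min_image (S.filter (fun J => (vs J).card = (vs J₀).card))
    (fun J => J.card) ⟨J₀, mem_filter.2 ⟨hJ₀, rfl⟩⟩
  obtain ⟨h1, h2⟩ := mem_filter.1 hJ₁
  obtain ⟨-, h3, h4⟩ := mem_filter.1 h1
  refine ⟨_, _, J₁, ⟨h3, h4, h2, rfl⟩, ?_⟩
  intro J hJ hJ'
  have h5 : J ∈ S := mem_filter.2 ⟨mem_univ _, hJ, hJ'⟩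
  exact ⟨hmin₀ J h5, fun h6 => hmin₁ J (mem_filter.2 ⟨h5, h6⟩)⟩

theorem Crit.proper {H : SimpleGraph (Fin n)} {K m l : ℕ} (hL : Least H K m l)
    {J : Finset (Sym2 (Fin n))} (hJ : Crit H K m l J) {J' : Finset (Sym2 (Fin n))}
    (h1 : J' ⊆ J) (h2 : J' ≠ J) : Col K J' := by
  classical
  by_contra h3
  obtain ⟨h4, h5⟩ := hL J' (fun e he => hJ.sub e (h1 he)) h3
  have h6 : (vs J').card ≤ (vs J).card := by
    apply card_le_card
    intro v hv
    obtain ⟨e, he, hve⟩ := mem_vs.1 hv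
    exact mem_vs.2 ⟨e, h1 he, hve⟩
  rw [hJ.cv] at h6
  have h7 := h5 (le_antisymm h6 h4)
  rw [← hJ.ce] at h7
  exact h2 (eq_of_subset_of_card_le h1 h7)

/-- Few vertices of `H` are `K`-colourable. -/
theorem few_col {H : SimpleGraph (Fin n)} {K m l : ℕ} (hL : Least H K m l) (P : Finset (Fin n))
    (hP : P.card < m) : ∃ κ : Fin n → Fin K, ∀ a ∈ P, ∀ b ∈ P, H.Adj a b → κ a ≠ κ b := by
  classical
  by_contra h
  have h1 : ¬ Col K ((ed H).filter (fun e => ∀ v ∈ e, v ∈ P)) := by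
    rintro ⟨κ, hκ⟩
    apply h
    refine ⟨κ, fun a ha b hb hab => hκ a b (mem_filter.2 ⟨mem_ed.2 hab, ?_⟩)⟩
    intro v hv
    rcases Sym2.mem_iff.1 hv with rfl | rfl
    · exact ha
    · exact hb
  obtain ⟨h2, -⟩ := hL _ (fun e he => (mem_filter.1 he).1) h1
  have h3 : vs ((ed H).filter (fun e => ∀ v ∈ e, v ∈ P)) ⊆ P := by
    intro v hv
    obtain ⟨e, he, hve⟩ := mem_vs.1 hv
    exact (mem_filter.1 he).2 v hve
  have := card_le_card h3
  omega

theorem Crit.twoC {H : SimpleGraph (Fin n)} {K m l : ℕ} (hL : Least H K m l)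
    {J : Finset (Sym2 (Fin n))} (hJ : Crit H K m l J) : TwoC J := by
  classical
  intro J1 J2 h1 h2 hd hp
  by_contra hcon
  push Not at hcon
  apply hJ.ncol
  have sub1 : J1 ⊆ J := fun e he => (hp e).2 (Or.inl he)
  have sub2 : J2 ⊆ J := fun e he => (hp e).2 (Or.inr he)
  have ne1 : J1 ≠ J := by
    intro h
    obtain ⟨e, he⟩ := h2
    exact Finset.disjoint_left.1 hd (by rw [h]; exact sub2 he) he
  have ne2 : J2 ≠ J := by
    intro h
    obtain ⟨e, he⟩ := h1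
    exact Finset.disjoint_left.1 hd he (by rw [h]; exact sub1 he)
  obtain ⟨κ1, hκ1⟩ := hJ.proper hL sub1 ne1
  obtain ⟨κ2, hκ2⟩ := hJ.proper hL sub2 ne2
  obtain ⟨π, hπ⟩ : ∃ π : Equiv.Perm (Fin K), ∀ v, Shares J1 J2 v → π (κ2 v) = κ1 v := by
    by_cases h3 : ∃ v, Shares J1 J2 v
    · obtain ⟨w, hw⟩ := h3
      refine ⟨Equiv.swap (κ2 w) (κ1 w), fun v hv => ?_⟩
      have h4 : v = w := by
        by_contra h5
        exact hcon v w h5 hv hw
      rw [h4, Equiv.swap_apply_left]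
    · exact ⟨Equiv.refl _, fun v hv => absurd ⟨v, hv⟩ h3⟩
  refine ⟨fun v => if On J1 v then κ1 v else π (κ2 v), ?_⟩
  intro a b hab
  beta_reduce
  have oa : ∀ (I : Finset (Sym2 (Fin n))), s(a, b) ∈ I → On I a ∧ On I b := fun I h =>
    ⟨⟨_, h, Sym2.mem_mk_left _ _⟩, ⟨_, h, Sym2.mem_mk_right _ _⟩⟩
  rcases (hp _).1 hab with h | h
  · rw [if_pos (oa J1 h).1, if_pos (oa J1 h).2]
    exact hκ1 a b h
  · have key : ∀ v, On J2 v → (if On J1 v then κ1 v else π (κ2 v)) = π (κ2 v) := by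
      intro v hv
      by_cases h3 : On J1 v
      · rw [if_pos h3, hπ v ⟨h3, hv⟩]
      · rw [if_neg h3]
    rw [key a (oa J2 h).1, key b (oa J2 h).2]
    intro h3
    exact hκ2 a b h (π.injective h3)

theorem Crit.ne {H : SimpleGraph (Fin n)} {K m l : ℕ} (hK : 2 ≤ K)
    {J : Finset (Sym2 (Fin n))} (hJ : Crit H K m l J) (v₀ : Fin n) :
    ∃ a b, s(a, b) ∈ J ∧ a ≠ v₀ ∧ b ≠ v₀ := by
  classical
  by_contra hcon
  push Not at hcon
  apply hJ.ncol
  refine ⟨fun v => if v = v₀ then ⟨0, by omega⟩ else ⟨1, by omega⟩, ?_⟩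
  intro a b hab
  beta_reduce
  have hne : a ≠ b := (mem_ed.1 (hJ.sub _ hab)).ne
  by_cases ha : a = v₀
  · have hb : b ≠ v₀ := fun h => hne (ha.trans h.symm)
    rw [if_pos ha, if_neg hb]
    simp
  · have hb := hcon a b hab ha
    rw [if_neg ha, if_pos hb]
    simp

/-- The image of a critical set under a map which is injective on its vertices. -/
theorem Crit.image {H : SimpleGraph (Fin n)} {K m l : ℕ}
    {J : Finset (Sym2 (Fin n))} (hJ : Crit H K m l J) (f : Fin n → Fin n)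
    (hf : ∀ u v, On J u → On J v → f u = f v → u = v)
    (hf2 : ∀ a b, s(a, b) ∈ J → H.Adj (f a) (f b)) :
    Crit H K m l (J.image (Sym2.map f)) := by
  classical
  refine ⟨?_, ?_, ?_, ?_⟩
  · intro e he
    obtain ⟨e', he', rfl⟩ := mem_image.1 he
    induction e' using Sym2.ind with
    | _ a b =>
      rw [Sym2.map_mk]
      exact mem_ed.2 (hf2 a b he')
  · rintro ⟨κ, hκ⟩
    apply hJ.ncol
    refine ⟨fun v => κ (f v), fun a b hab => hκ _ _ ?_⟩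
    exact mem_image.2 ⟨_, hab, Sym2.map_mk _ _ _⟩
  · rw [← hJ.cv]
    have h1 : vs (J.image (Sym2.map f)) = (vs J).image f := by
      ext v
      rw [mem_vs, mem_image]
      constructor
      · rintro ⟨e, he, hv⟩
        obtain ⟨e', he', rfl⟩ := mem_image.1 he
        obtain ⟨u, hu, rfl⟩ := Sym2.mem_map.1 hv
        exact ⟨u, mem_vs.2 ⟨e', he', hu⟩, rfl⟩
      · rintro ⟨u, hu, rfl⟩
        obtain ⟨e', he', hu'⟩ := mem_vs.1 hu
        exact ⟨_, mem_image_of_mem _ he', Sym2.mem_map.2 ⟨u, hu', rfl⟩⟩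
    rw [h1]
    exact card_image_of_injOn (fun u hu v hv h => hf u v (mem_vs.1 hu) (mem_vs.1 hv) h)
  · rw [← hJ.ce]
    apply card_image_of_injOn
    intro e he e' he' h
    exact map_inj_of f {u | On J u} (fun u hu v hv h => hf u v hu hv h) e e'
      (fun v hv => ⟨e, he, hv⟩) (fun v hv => ⟨e', he', hv⟩) h

/-! ## The choice of the edge -/

/-- All edges of `J` are in sets of the class `C`. -/
def InC (C : Finset (Sym2 (Fin n)) → Prop) (J : Finset (Sym2 (Fin n))) : Prop :=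
  ∀ e ∈ J, ∃ J', C J' ∧ e ∈ J'

/-- The rule for the choice of the edge `x y`. -/
structure GRule (C : Finset (Sym2 (Fin n)) → Prop) (x y : Fin n) (B₁ : Finset (Sym2 (Fin n)))
    (𝒳 : Finset (Finset (Sym2 (Fin n)))) : Prop where
  mem : B₁ ∈ 𝒳
  exy : s(x, y) ∈ B₁
  tri : ∀ B ∈ 𝒳, InC C B
  two : ∀ B ∈ 𝒳, TwoC B
  iso : ∀ B ∈ 𝒳, ∃ σ : Equiv.Perm (Fin n), B = B₁.image (Sym2.map σ)
  off : ∀ B ∈ 𝒳, B ≠ B₁ → ¬ On B x ∧ ¬ On B y
  ext : ∀ J, InC C J → TwoC J → s(x, y) ∈ J → J ⊆ B₁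
  cls : ∀ (J : Finset (Sym2 (Fin n))) (f : Fin n → Fin n),
    (∀ u v, On B₁ u → On B₁ v → f u = f v → u = v) → J = B₁.image (Sym2.map f) → InC C J →
    J ∈ 𝒳

theorem gtrb (H : SimpleGraph (Fin n)) (C : Finset (Sym2 (Fin n)) → Prop)
    (hC1 : ∀ J, C J → ∀ e ∈ J, e ∈ ed H) (hC2 : ∀ J, C J → TwoC J)
    (hC3 : ∀ J, C J → ∀ v₀, ∃ a b, s(a, b) ∈ J ∧ a ≠ v₀ ∧ b ≠ v₀) (hC4 : ∃ J, C J)
    (hn : Nonempty (Fin n)) : ∃ x y B₁ 𝒳, GRule C x y B₁ 𝒳 := by
  classical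
  obtain ⟨J₀, hJ₀⟩ := hC4
  -- the good edge sets, one with most edges
  set good : Finset (Sym2 (Fin n)) → Prop := fun J => InC C J ∧ J.Nonempty ∧ TwoC J with hgood
  have gC : ∀ J, C J → good J := by
    intro J hJ
    obtain ⟨v₀⟩ := hn
    obtain ⟨a, b, hab, -, -⟩ := hC3 J hJ v₀
    exact ⟨fun e he => ⟨J, hJ, he⟩, ⟨_, hab⟩, hC2 J hJ⟩
  obtain ⟨B₀, hB₀, hB₀max⟩ : ∃ B₀, good B₀ ∧ ∀ J, good J → J.card ≤ B₀.card := by
    obtain ⟨B₀, hB₀, hmax⟩ := Finset.exists_max_image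
      ((univ : Finset (Finset (Sym2 (Fin n)))).filter good) (fun J => J.card)
      ⟨J₀, mem_filter.2 ⟨mem_univ _, gC J₀ hJ₀⟩⟩
    exact ⟨B₀, (mem_filter.1 hB₀).2, fun J hJ => hmax J (mem_filter.2 ⟨mem_univ _, hJ⟩)⟩
  set 𝒳 := (univ : Finset (Finset (Sym2 (Fin n)))).filter
    (fun B => InC C B ∧ ∃ σ : Equiv.Perm (Fin n), B = B₀.image (Sym2.map σ)) with h𝒳
  have hmem : ∀ B, B ∈ 𝒳 ↔ InC C B ∧ ∃ σ : Equiv.Perm (Fin n), B = B₀.image (Sym2.map σ) := by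
    intro B
    rw [h𝒳, mem_filter]
    exact ⟨fun h => h.2, fun h => ⟨mem_univ _, h⟩⟩
  have h0mem : B₀ ∈ 𝒳 := (hmem _).2 ⟨hB₀.1, Equiv.refl _, by
    simp only [Equiv.coe_refl, Sym2.map_id, image_id]⟩
  have hcard : ∀ B ∈ 𝒳, B.card = B₀.card := by
    intro B hB
    obtain ⟨-, σ, rfl⟩ := (hmem B).1 hB
    exact card_image_of_injective _ (Sym2.map.injective σ.injective)
  have hgd : ∀ B ∈ 𝒳, good B := by
    intro B hB
    obtain ⟨h1, σ, h2⟩ := (hmem B).1 hB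
    refine ⟨h1, ?_, ?_⟩
    · rw [h2]
      exact hB₀.2.1.image _
    · rw [h2]
      exact TwoC.map hB₀.2.2 _ (fun u v _ _ h => σ.injective h)
  -- a good set which shares two vertices with a member is contained in it
  have hext : ∀ B ∈ 𝒳, ∀ J, good J → ∀ u v, u ≠ v → Shares B J u → Shares B J v → J ⊆ B := by
    intro B hB J hJ u v huv hu hv
    have h1 : good (B ∪ J) := by
      refine ⟨?_, (hgd B hB).2.1.mono subset_union_left,
        union_twoC (hgd B hB).2.2 hJ.2.2 huv hu hv⟩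
      intro e he
      rcases mem_union.1 he with h | h
      · exact (hgd B hB).1 e h
      · exact hJ.1 e h
    have h2 := hB₀max _ h1
    rw [← hcard B hB] at h2
    have h3 : B = B ∪ J := eq_of_subset_of_card_le subset_union_left h2
    rw [h3]
    exact subset_union_right
  obtain ⟨B₁, hB₁, v₀, hv₀⟩ := leaf 𝒳 ⟨B₀, h0mem⟩ (fun B hB => (hgd B hB).2) (by
    intro 𝒴 hY h2 hT
    have hsub : ∀ B ∈ 𝒴, B = 𝒴.biUnion id := by
      intro B hB
      refine eq_of_subset_of_card_le (subset_biUnion_of_mem id hB) ?_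
      rw [hcard B (hY hB)]
      refine hB₀max _ ⟨?_, ?_, hT⟩
      · intro e he
        obtain ⟨C, hC, heC⟩ := mem_biUnion.1 he
        exact (hgd C (hY hC)).1 e heC
      · exact (hgd B (hY hB)).2.1.mono (subset_biUnion_of_mem id hB)
    obtain ⟨B, hB, B', hB', hne⟩ := one_lt_card.1 h2
    exact hne ((hsub B hB).trans (hsub B' hB').symm))
  -- the edge
  obtain ⟨x, y, hxy, hx, hy⟩ : ∃ x y, s(x, y) ∈ B₁ ∧ x ≠ v₀ ∧ y ≠ v₀ := by
    obtain ⟨e, he⟩ := (hgd B₁ hB₁).2.1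
    obtain ⟨J, hJ, heJ⟩ := (hgd B₁ hB₁).1 e he
    induction e using Sym2.ind with
    | _ a b =>
      have hab : a ≠ b := (mem_ed.1 (hC1 J hJ _ heJ)).ne
      have hsub := hext B₁ hB₁ J (gC J hJ) a b hab
        ⟨⟨_, he, Sym2.mem_mk_left _ _⟩, ⟨_, heJ, Sym2.mem_mk_left _ _⟩⟩
        ⟨⟨_, he, Sym2.mem_mk_right _ _⟩, ⟨_, heJ, Sym2.mem_mk_right _ _⟩⟩
      obtain ⟨x, y, hxy, hx, hy⟩ := hC3 J hJ v₀
      exact ⟨x, y, hsub hxy, hx, hy⟩
  have hxyH : x ≠ y := by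
    obtain ⟨J, hJ, heJ⟩ := (hgd B₁ hB₁).1 _ hxy
    exact (mem_ed.1 (hC1 J hJ _ heJ)).ne
  obtain ⟨-, σ₁, hσ₁⟩ := (hmem B₁).1 hB₁
  refine ⟨x, y, B₁, 𝒳, hB₁, hxy, fun B hB => (hgd B hB).1, fun B hB => (hgd B hB).2.2, ?_, ?_,
    ?_, ?_⟩
  · intro B hB
    obtain ⟨-, σ, hσ⟩ := (hmem B).1 hB
    refine ⟨σ₁.symm.trans σ, ?_⟩
    rw [hσ, hσ₁, image_image]
    apply Finset.image_congr
    intro e _
    simp only [Function.comp_apply, Sym2.map_map]
    apply Sym2.map_congr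
    intro v _
    simp
  · intro B hB hne
    refine ⟨fun h => hx (hv₀ B hB hne x ⟨⟨_, hxy, Sym2.mem_mk_left _ _⟩, h⟩),
      fun h => hy (hv₀ B hB hne y ⟨⟨_, hxy, Sym2.mem_mk_right _ _⟩, h⟩)⟩
  · intro J hJ hT hJxy
    exact hext B₁ hB₁ J ⟨hJ, ⟨_, hJxy⟩, hT⟩ x y hxyH
      ⟨⟨_, hxy, Sym2.mem_mk_left _ _⟩, ⟨_, hJxy, Sym2.mem_mk_left _ _⟩⟩
      ⟨⟨_, hxy, Sym2.mem_mk_right _ _⟩, ⟨_, hJxy, Sym2.mem_mk_right _ _⟩⟩
  · intro J f hf hJ hJt
    -- extend `f` to a permutation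
    set S : Finset (Fin n) := univ.filter (fun v => On B₁ v) with hS
    obtain ⟨g, hg⟩ := Finset.exists_equiv_extend_of_card_eq (t := (univ : Finset (Fin n)))
      (by simp) (s := S) (f := f) (subset_univ _) (by
        intro u hu v hv h
        exact hf u v (mem_filter.1 hu).2 (mem_filter.1 hv).2 h)
    set τ : Equiv.Perm (Fin n) := g.trans ⟨fun w => w.1, fun w => ⟨w, mem_univ _⟩,
      fun _ => rfl, fun _ => rfl⟩ with hτ
    have hτf : ∀ v, On B₁ v → f v = τ v := fun v hv => (hg v (mem_filter.2 ⟨mem_univ _, hv⟩)).symm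
    refine (hmem J).2 ⟨hJt, σ₁.trans τ, ?_⟩
    rw [hJ, MP3240M.image_congr hτf, hσ₁, image_image]
    apply Finset.image_congr
    intro e _
    simp only [Function.comp_apply, Sym2.map_map]
    apply Sym2.map_congr
    intro v _
    simp

end MP3240M
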