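import Pool.Agent.Lib.MP_3240be_co.M64.Gdefs
import Pool.Agent.Lib.MP_3240be_co.M64.Crt
import Pool.Agent.Lib.MP_3240be_co.M64.Clo

/-!
# MP_3240be_co: the general closure lemma
-/

set_option autoImplicit false

namespace MP3240M

open Finset MP3240T MP3240W MP3240W.Bvh

namespace Gcl

open Clo (DS dd DS_att DS_le dd_att dd_le dd_le_DS DS_zero DS_lip lip_dist)

variable {n N : ℕ} {Y : Type}

theorem exists_perm {K : ℕ} {p q p' q' : Fin K} (h : p ≠ q) (h' : p' ≠ q') :
    ∃ π : Equiv.Perm (Fin K), π p = p' ∧ π q = q' := by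
  set σ := Equiv.swap p p' with hσ
  have h1 : σ p = p' := Equiv.swap_apply_left _ _
  have h2 : σ q ≠ p' := fun h3 => h (σ.injective (h1.trans h3.symm))
  refine ⟨σ.trans (Equiv.swap (σ q) q'), ?_, ?_⟩
  · rw [Equiv.trans_apply, h1]
    exact Equiv.swap_apply_of_ne_of_ne (Ne.symm h2) h'
  · rw [Equiv.trans_apply]
    exact Equiv.swap_apply_left _ _

/-- The projection to `H` of a blob at the free vertex `a`. -/
noncomputable def pr (x y : Fin n) (F : Fin n → GY n N Y) (a v : Fin n) : Fin n := by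
  classical exact match F v with
  | .inl (.inr t) => t.2.2.2
  | .inl (.inl u) => if u = a then x else y
  | .inr _ => x

section

variable {H : SimpleGraph (Fin n)} {x y : Fin n} {F : Fin n → GY n N Y}

theorem pr_slot {a v : Fin n} {t : Slot n N} (h : F v = .inl (.inr t)) :
    pr x y F a v = t.2.2.2 := by
  simp only [pr, h]

theorem pr_one {a v : Fin n} (h : F v = .inl (.inl a)) : pr x y F a v = x := by
  simp only [pr, h, if_true]

theorem pr_two {a b v : Fin n} (hab : a ≠ b) (h : F v = .inl (.inl b)) :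
    pr x y F a v = y := by
  simp only [pr, h]
  rw [if_neg hab.symm]

/-- The image of `v` is a slot of the blob `β` or one of its roots. -/
def gd0 (F : Fin n → GY n N Y) (β : Fin n × Fin n × Fin N) (v : Fin n) : Prop :=
  (∃ t, F v = .inl (.inr t) ∧ tri t = β) ∨ F v = .inl (.inl β.1) ∨ F v = .inl (.inl β.2.1)

/-- A critical set lies in one blob. -/
theorem crit_blob (hxy : H.Adj x y) {K m l : ℕ} (hK : 2 ≤ K) (hL : Least H K m l)
    {R : Fin n × Fin n × Fin n → Y → Y → Prop} {A : Fin n × Fin n × Fin n → Y → Prop}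
    (hA : ∀ s, AttCol K n (R s) (A s)) (hadj : ∀ i j, H.Adj i j → yg H x y R A (F i) (F j))
    {J : Finset (Sym2 (Fin n))} (hJ : Crit H K m l J) :
    ∃ β : Fin n × Fin n × Fin N, ∀ v, On J v → gd0 F β v := by
  classical
  by_contra hcon
  push Not at hcon
  set V := vs J with hV
  have hVm : V.card = m := hJ.cv
  have hedge : ∀ a b, s(a, b) ∈ J → a ∈ V ∧ b ∈ V ∧ yg H x y R A (F a) (F b) := fun a b hab =>
    ⟨mem_vs.2 ⟨_, hab, Sym2.mem_mk_left _ _⟩, mem_vs.2 ⟨_, hab, Sym2.mem_mk_right _ _⟩,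
      hadj a b (mem_ed.1 (hJ.sub _ hab))⟩
  have hK0 : 0 < K := by omega
  obtain ⟨a₀, b₀, h0⟩ : ∃ a b, s(a, b) ∈ J := by
    by_contra h
    apply hJ.ncol
    exact ⟨fun _ => ⟨0, hK0⟩, fun a b hab => absurd ⟨a, b, hab⟩ h⟩
  obtain ⟨att, hatt⟩ : ∃ att : Prop, att ↔ ∃ v ∈ V, ∃ c, F v = .inr c := ⟨_, Iff.rfl⟩
  -- the colours of the free vertices
  obtain ⟨cZ, hcZ⟩ : ∃ cZ : Fin n → Fin K, ∀ u w, (∃ v ∈ V, F v = .inl (.inl u)) →
      (∃ v ∈ V, F v = .inl (.inl w)) → H.Adj u w → cZ u ≠ cZ w := by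
    set P := univ.filter (fun u => ∃ v ∈ V, F v = .inl (.inl u)) with hP
    let lb : Fin n → Fin n := fun v => match F v with
      | .inl (.inl u) => u
      | _ => a₀
    have h1 : P ⊆ (V.filter (fun v => ∃ u, F v = .inl (.inl u))).image lb := by
      intro u hu
      obtain ⟨v, hv, hvu⟩ := (mem_filter.1 hu).2
      refine mem_image.2 ⟨v, mem_filter.2 ⟨hv, u, hvu⟩, ?_⟩
      simp only [lb, hvu]
    have h2 : (V.filter (fun v => ∃ u, F v = .inl (.inl u))).card < V.card := by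
      apply card_lt_card
      rw [filter_ssubset]
      obtain ⟨ha, hb, hy⟩ := hedge a₀ b₀ h0
      by_cases h3 : ∃ u, F a₀ = .inl (.inl u)
      · refine ⟨b₀, hb, ?_⟩
        rintro ⟨u', hu'⟩
        obtain ⟨u, hu⟩ := h3
        rw [hu, hu'] at hy
        exact hy
      · exact ⟨a₀, ha, h3⟩
    have h3 : P.card < m := by
      rw [← hVm]
      exact lt_of_le_of_lt ((card_le_card h1).trans card_image_le) h2
    obtain ⟨κ, hκ⟩ := few_col hL P h3
    exact ⟨κ, fun u w hu hw h => hκ u (mem_filter.2 ⟨mem_univ _, hu⟩) w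
      (mem_filter.2 ⟨mem_univ _, hw⟩) h⟩
  -- the colours of the slots
  let Cl : Fin n × Fin n × Option (Fin N) → Slot n N → Prop := fun k t =>
    t.1 = k.1 ∧ t.2.1 = k.2.1 ∧ ∀ ν, k.2.2 = some ν → t.2.2.1 = ν
  let U : Fin n × Fin n × Option (Fin N) → Finset (Fin n) := fun k => V.filter (fun v =>
    (∃ t, F v = .inl (.inr t) ∧ Cl k t) ∨ F v = .inl (.inl k.1) ∨ F v = .inl (.inl k.2.1))
  have hU : ∀ k v, v ∈ U k ↔ v ∈ V ∧ ((∃ t, F v = .inl (.inr t) ∧ Cl k t) ∨
      F v = .inl (.inl k.1) ∨ F v = .inl (.inl k.2.1)) := fun k v => mem_filter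
  have hUc : ∀ k, (k.2.2 = none → att) → (U k).card < m := by
    intro k hk
    rw [← hVm]
    apply card_lt_card
    rw [filter_ssubset]
    rcases hk2 : k.2.2 with _ | ν
    · obtain ⟨v, hv, c, hc⟩ := hatt.1 (hk hk2)
      refine ⟨v, hv, ?_⟩
      rintro (⟨t, ht, -⟩ | h | h)
      · rw [hc] at ht
        cases ht
      · rw [hc] at h
        cases h
      · rw [hc] at h
        cases h
    · obtain ⟨v, hv, hv'⟩ := hcon (k.1, k.2.1, ν)
      refine ⟨v, mem_vs.2 hv, fun h => hv' ?_⟩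
      rcases h with ⟨t, ht, h1, h2, h3⟩ | h | h
      · refine Or.inl ⟨t, ht, ?_⟩
        simp only [tri, h1, h2, h3 ν hk2]
      · exact Or.inr (Or.inl h)
      · exact Or.inr (Or.inr h)
  have hκ0 : ∀ k : Fin n × Fin n × Option (Fin N), ∃ κ : Fin n → Fin K,
      (k.2.2 = none → att) →
      (∀ a ∈ U k, ∀ b ∈ U k, H.Adj (pr x y F k.1 a) (pr x y F k.1 b) →
        κ (pr x y F k.1 a) ≠ κ (pr x y F k.1 b)) ∧
      (H.Adj k.1 k.2.1 → ((∃ v ∈ V, F v = .inl (.inl k.1)) → κ x = cZ k.1) ∧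
        ((∃ v ∈ V, F v = .inl (.inl k.2.1)) → κ y = cZ k.2.1)) := by
    intro k
    by_cases hk : k.2.2 = none → att
    · obtain ⟨κ₀, hκ₀⟩ := few_col hL ((U k).image (pr x y F k.1))
        (lt_of_le_of_lt card_image_le (hUc k hk))
      have hκ₀' : ∀ a ∈ U k, ∀ b ∈ U k, H.Adj (pr x y F k.1 a) (pr x y F k.1 b) →
          κ₀ (pr x y F k.1 a) ≠ κ₀ (pr x y F k.1 b) := fun a ha b hb h =>
        hκ₀ _ (mem_image_of_mem _ ha) _ (mem_image_of_mem _ hb) h
      have fin : ∀ π : Equiv.Perm (Fin K),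
          (H.Adj k.1 k.2.1 → ((∃ v ∈ V, F v = .inl (.inl k.1)) → π (κ₀ x) = cZ k.1) ∧
            ((∃ v ∈ V, F v = .inl (.inl k.2.1)) → π (κ₀ y) = cZ k.2.1)) →
          ∃ κ : Fin n → Fin K, (k.2.2 = none → att) →
          (∀ a ∈ U k, ∀ b ∈ U k, H.Adj (pr x y F k.1 a) (pr x y F k.1 b) →
            κ (pr x y F k.1 a) ≠ κ (pr x y F k.1 b)) ∧
          (H.Adj k.1 k.2.1 → ((∃ v ∈ V, F v = .inl (.inl k.1)) → κ x = cZ k.1) ∧
            ((∃ v ∈ V, F v = .inl (.inl k.2.1)) → κ y = cZ k.2.1)) := by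
        intro π hπ
        exact ⟨fun v => π (κ₀ v), fun _ => ⟨fun a ha b hb h h' =>
          hκ₀' a ha b hb h (π.injective h'), hπ⟩⟩
      by_cases hb : H.Adj k.1 k.2.1
      · by_cases z1 : ∃ v ∈ V, F v = .inl (.inl k.1)
        · by_cases z2 : ∃ v ∈ V, F v = .inl (.inl k.2.1)
          · obtain ⟨v1, hv1, e1⟩ := z1
            obtain ⟨v2, hv2, e2⟩ := z2
            have h1 := hκ₀' v1 ((hU k v1).2 ⟨hv1, Or.inr (Or.inl e1)⟩) v2
              ((hU k v2).2 ⟨hv2, Or.inr (Or.inr e2)⟩)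
            rw [pr_one e1, pr_two hb.ne e2] at h1
            obtain ⟨π, hπ1, hπ2⟩ := exists_perm (h1 hxy) (hcZ k.1 k.2.1 ⟨v1, hv1, e1⟩
              ⟨v2, hv2, e2⟩ hb)
            exact fin π (fun _ => ⟨fun _ => hπ1, fun _ => hπ2⟩)
          · exact fin (Equiv.swap (κ₀ x) (cZ k.1)) (fun _ =>
              ⟨fun _ => Equiv.swap_apply_left _ _, fun h => absurd h z2⟩)
        · exact fin (Equiv.swap (κ₀ y) (cZ k.2.1)) (fun _ =>
            ⟨fun h => absurd h z1, fun _ => Equiv.swap_apply_left _ _⟩)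
      · exact fin (Equiv.refl _) (fun h => absurd h hb)
    · exact ⟨fun _ => ⟨0, hK0⟩, fun h => absurd h hk⟩
  choose κ hκ using hκ0
  -- the colours of the attachments
  have hχ0 : ∀ s : Fin n × Fin n × Fin n, ∃ χ : Y → Fin K,
      (∀ a ∈ V, ∀ b ∈ V, ∀ c d, F a = .inr (s, c) → F b = .inr (s, d) → R s c d → χ c ≠ χ d) ∧
      ∀ a ∈ V, ∀ c, F a = .inr (s, c) → A s c → χ c ≠ κ (s.1, s.2.1, none) s.2.2 := by
    intro s
    let g : Fin n → Finset Y := fun a => match F a with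
      | .inr c => {c.2}
      | _ => ∅
    have hg : ∀ a c, F a = .inr (s, c) → c ∈ g a := by
      intro a c hc
      simp only [g, hc, mem_singleton]
    have hgc : ∀ a ∈ V, (g a).card ≤ 1 := by
      intro a _
      rcases ha : F a with p | c
      · simp only [g, ha, card_empty]
        omega
      · simp only [g, ha, card_singleton]
        exact le_refl _
    have hc : (V.biUnion g).card ≤ n := by
      refine (card_biUnion_le_card_mul V g 1 hgc).trans ?_
      rw [Nat.mul_one]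
      refine (card_le_univ V).trans ?_
      rw [Fintype.card_fin]
    obtain ⟨χ, k, h1, h2⟩ := hA s (V.biUnion g) hc
    refine ⟨fun c => Equiv.swap k (κ (s.1, s.2.1, none) s.2.2) (χ c), ?_, ?_⟩
    · intro a ha b hb c d hac hbd hR h
      exact h1 c (mem_biUnion.2 ⟨a, ha, hg a c hac⟩) d (mem_biUnion.2 ⟨b, hb, hg b d hbd⟩) hR
        (Equiv.injective _ h)
    · intro a ha c hac hAc h
      apply h2 c (mem_biUnion.2 ⟨a, ha, hg a c hac⟩) hAc
      apply (Equiv.swap k (κ (s.1, s.2.1, none) s.2.2)).injective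
      exact Eq.trans h (Equiv.swap_apply_left _ _).symm
  choose χ hχ using hχ0
  -- the key of a slot
  let key : Slot n N → Fin n × Fin n × Option (Fin N) := fun t =>
    (t.1, t.2.1, if att then none else some t.2.2.1)
  have hok : ∀ t, (key t).2.2 = none → att := by
    intro t h
    by_contra h1
    simp only [key] at h
    rw [if_neg h1] at h
    cases h
  have hCl : ∀ t, Cl (key t) t := by
    intro t
    refine ⟨rfl, rfl, fun ν h => ?_⟩
    simp only [key] at h
    by_cases h1 : att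
    · rw [if_pos h1] at h
      cases h
    · rw [if_neg h1] at h
      exact Option.some_injective _ h
  have hkeyatt : att → ∀ t, key t = (t.1, t.2.1, none) := by
    intro h t
    simp only [key]
    rw [if_pos h]
  have hkeytri : ∀ t t', tri t = tri t' → key t = key t' := by
    intro t t' h
    simp only [tri, Prod.mk.injEq] at h
    simp only [key]
    rw [h.1, h.2.1, h.2.2]
  -- free vertices and slots
  have zs : ∀ a b u t, a ∈ V → b ∈ V → F a = .inl (.inl u) → F b = .inl (.inr t) →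
      zAdj H x y u t → cZ u ≠ κ (key t) t.2.2.2 := by
    intro a b u t ha hb hau hbt hz
    have hbU : b ∈ U (key t) := (hU _ b).2 ⟨hb, Or.inl ⟨t, hbt, hCl t⟩⟩
    have hk := hκ (key t) (hok t)
    rcases hz.2.2 with ⟨h1, h2⟩ | ⟨h1, h2⟩
    · have hau' : F a = .inl (.inl (key t).1) := by rw [hau, h1]
      have haU : a ∈ U (key t) := (hU _ a).2 ⟨ha, Or.inr (Or.inl hau')⟩
      have h3 := hk.1 a haU b hbU
      rw [pr_one hau', pr_slot hbt] at h3
      have h4 := (hk.2 hz.1).1 ⟨a, ha, hau'⟩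
      have h5 : (key t).1 = u := h1.symm
      rw [h4, h5] at h3
      exact h3 h2
    · have hau' : F a = .inl (.inl (key t).2.1) := by rw [hau, h1]
      have haU : a ∈ U (key t) := (hU _ a).2 ⟨ha, Or.inr (Or.inr hau')⟩
      have h3 := hk.1 a haU b hbU
      rw [pr_two hz.1.ne hau', pr_slot hbt] at h3
      have h4 := (hk.2 hz.1).2 ⟨a, ha, hau'⟩
      have h5 : (key t).2.1 = u := h1.symm
      rw [h4, h5] at h3
      exact h3 h2
  -- slots and attachments
  have sa : ∀ a b t c, a ∈ V → b ∈ V → F a = .inl (.inr t) → F b = .inr c →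
      A c.1 c.2 → twAdj H x y c.1 t → κ (key t) t.2.2.2 ≠ χ c.1 c.2 := by
    intro a b t c ha hb hat hbc hAc htw h
    have h1 : att := hatt.2 ⟨b, hb, c, hbc⟩
    have h2 := (hχ c.1).2 b hb c.2 hbc hAc
    apply h2
    rw [← h, hkeyatt h1 t, htw.1, htw.2.1, htw.2.2.1]
  apply hJ.ncol
  refine ⟨fun v => match F v with
    | .inl (.inl u) => cZ u
    | .inl (.inr t) => κ (key t) t.2.2.2
    | .inr c => χ c.1 c.2, ?_⟩
  intro a b hab
  obtain ⟨ha, hb, hy⟩ := hedge a b hab
  beta_reduce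
  rcases ea : F a with (u | t) | c <;> rcases eb : F b with (u' | t') | c' <;>
    rw [ea, eb] at hy
  · exact (hy : False).elim
  · exact zs a b u t' ha hb ea eb hy
  · exact (hy : False).elim
  · exact (zs b a u' t hb ha eb ea hy).symm
  · have h1 : blobAdj H x y t t' := hy
    have h2 : tri t = tri t' := by
      simp only [tri, h1.1, h1.2.1, h1.2.2.1]
    have haU : a ∈ U (key t) := (hU _ a).2 ⟨ha, Or.inl ⟨t, ea, hCl t⟩⟩
    have hbU : b ∈ U (key t) := (hU _ b).2 ⟨hb, Or.inl ⟨t', eb, by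
      rw [hkeytri t t' h2]
      exact hCl t'⟩⟩
    have h3 := (hκ (key t) (hok t)).1 a haU b hbU
    rw [pr_slot ea, pr_slot eb] at h3
    show κ (key t) t.2.2.2 ≠ κ (key t') t'.2.2.2
    rw [← hkeytri t t' h2]
    exact h3 h1.2.2.2.2.2
  · exact sa a b t c' ha hb ea eb hy.1 hy.2
  · exact (hy : False).elim
  · exact (sa b a t' c hb ha eb ea hy.1 hy.2).symm
  · obtain ⟨s, cc⟩ := c
    obtain ⟨s', cc'⟩ := c'
    have h1 : s = s' := hy.1
    subst h1
    exact (hχ s).1 a ha b hb cc cc' ea eb hy.2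

/-! ## The image in one blob -/

/-- The image of `v` is an inner slot of the blob `β`. -/
def sl (x y : Fin n) (F : Fin n → GY n N Y) (β : Fin n × Fin n × Fin N) (v : Fin n) : Prop :=
  ∃ t, F v = .inl (.inr t) ∧ tri t = β ∧ inner x y t

/-- The image of `v` is an inner slot of the blob `β` or one of its two roots. -/
def gd (H : SimpleGraph (Fin n)) (x y : Fin n) (F : Fin n → GY n N Y)
    (β : Fin n × Fin n × Fin N) (v : Fin n) : Prop :=
  sl x y F β v ∨ ((F v = .inl (.inl β.1) ∨ F v = .inl (.inl β.2.1)) ∧ H.Adj β.1 β.2.1)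

theorem pr_inj (hxy : H.Adj x y) (hF : Function.Injective F) {β : Fin n × Fin n × Fin N}
    {u v : Fin n} (hu : gd H x y F β u) (hv : gd H x y F β v)
    (huv : pr x y F β.1 u = pr x y F β.1 v) : u = v := by
  rcases hu with ⟨t, ht, htb, hin⟩ | ⟨hu, hb⟩
  · rcases hv with ⟨t', ht', htb', hin'⟩ | ⟨hv, hb⟩
    · rw [pr_slot ht, pr_slot ht'] at huv
      apply hF
      rw [ht, ht', slot_ext (htb.trans htb'.symm) huv]
    · exfalso
      rcases hv with hv | hv
      · rw [pr_slot ht, pr_one hv] at huv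
        exact hin.1 huv
      · rw [pr_slot ht, pr_two hb.ne hv] at huv
        exact hin.2 huv
  · rcases hv with ⟨t', ht', htb', hin'⟩ | ⟨hv, -⟩
    · exfalso
      rcases hu with hu | hu
      · rw [pr_slot ht', pr_one hu] at huv
        exact hin'.1 huv.symm
      · rw [pr_slot ht', pr_two hb.ne hu] at huv
        exact hin'.2 huv.symm
    · rcases hu with hu | hu <;> rcases hv with hv | hv
      · exact hF (hu.trans hv.symm)
      · rw [pr_one hu, pr_two hb.ne hv] at huv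
        exact absurd huv hxy.ne
      · rw [pr_two hb.ne hu, pr_one hv] at huv
        exact absurd huv.symm hxy.ne
      · exact hF (hu.trans hv.symm)

/-- An edge between a free vertex and a slot. -/
theorem zs_fact {β : Fin n × Fin n × Fin N} {a b u : Fin n} {t : Slot n N}
    (ha : F a = .inl (.inl u)) (hb : F b = .inl (.inr t)) (htb : tri t = β)
    (hz : zAdj H x y u t) : sl x y F β b ∧ gd H x y F β a ∧
      H.Adj (pr x y F β.1 a) (pr x y F β.1 b) ∧ pr x y F β.1 b ≠ x ∧ pr x y F β.1 b ≠ y := by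
  have hb1 : t.1 = β.1 := by rw [← htb]; rfl
  have hb2 : t.2.1 = β.2.1 := by rw [← htb]; rfl
  have hbb : H.Adj β.1 β.2.1 := by
    rw [← hb1, ← hb2]
    exact hz.1
  rw [pr_slot hb]
  rcases hz.2.2 with ⟨h1, h2⟩ | ⟨h1, h2⟩
  · have ha' : F a = .inl (.inl β.1) := by rw [ha, h1, hb1]
    rw [pr_one ha']
    exact ⟨⟨t, hb, htb, hz.2.1⟩, Or.inr ⟨Or.inl ha', hbb⟩, h2, hz.2.1.1, hz.2.1.2⟩
  · have ha' : F a = .inl (.inl β.2.1) := by rw [ha, h1, hb2]
    rw [pr_two hbb.ne ha']
    exact ⟨⟨t, hb, htb, hz.2.1⟩, Or.inr ⟨Or.inr ha', hbb⟩, h2, hz.2.1.1, hz.2.1.2⟩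

/-- An edge inside a blob. -/
theorem edge_gd {R : Fin n × Fin n × Fin n → Y → Y → Prop}
    {A : Fin n × Fin n × Fin n → Y → Prop} {β : Fin n × Fin n × Fin N} {a b : Fin n}
    (hy : yg H x y R A (F a) (F b)) (ha : gd0 F β a) (hb : gd0 F β b) :
    (sl x y F β a ∨ sl x y F β b) ∧ gd H x y F β a ∧ gd H x y F β b ∧
      H.Adj (pr x y F β.1 a) (pr x y F β.1 b) ∧
      s(pr x y F β.1 a, pr x y F β.1 b) ≠ s(x, y) := by
  have nx : ∀ p q : Fin n, p ≠ x → p ≠ y → s(p, q) ≠ s(x, y) := by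
    intro p q h1 h2 h3
    have h4 : p ∈ s(x, y) := by
      rw [← h3]
      exact Sym2.mem_mk_left _ _
    rcases Sym2.mem_iff.1 h4 with h5 | h5
    · exact h1 h5
    · exact h2 h5
  have zc : ∀ (a b u : Fin n) (t : Slot n N), F a = .inl (.inl u) → F b = .inl (.inr t) →
      tri t = β → zAdj H x y u t → (sl x y F β a ∨ sl x y F β b) ∧ gd H x y F β a ∧
      gd H x y F β b ∧ H.Adj (pr x y F β.1 a) (pr x y F β.1 b) ∧
      s(pr x y F β.1 a, pr x y F β.1 b) ≠ s(x, y) := by
    intro a b u t ha hb htb hz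
    obtain ⟨h1, h2, h3, h4, h5⟩ := zs_fact ha hb htb hz
    refine ⟨Or.inr h1, h2, Or.inl h1, h3, ?_⟩
    rw [Sym2.eq_swap]
    exact nx _ _ h4 h5
  have sw : ∀ a b : Fin n, ((sl x y F β a ∨ sl x y F β b) ∧ gd H x y F β a ∧
      gd H x y F β b ∧ H.Adj (pr x y F β.1 a) (pr x y F β.1 b) ∧
      s(pr x y F β.1 a, pr x y F β.1 b) ≠ s(x, y)) → (sl x y F β b ∨ sl x y F β a) ∧
      gd H x y F β b ∧ gd H x y F β a ∧ H.Adj (pr x y F β.1 b) (pr x y F β.1 a) ∧
      s(pr x y F β.1 b, pr x y F β.1 a) ≠ s(x, y) := by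
    intro a b ⟨h1, h2, h3, h4, h5⟩
    refine ⟨h1.symm, h3, h2, h4.symm, ?_⟩
    rw [Sym2.eq_swap]
    exact h5
  rcases ha with ⟨t, ha, htb⟩ | ha
  · rcases hb with ⟨t', hb, htb'⟩ | hb
    · rw [ha, hb] at hy
      have h1 : blobAdj H x y t t' := hy
      refine ⟨Or.inl ⟨t, ha, htb, h1.2.2.2.1⟩, Or.inl ⟨t, ha, htb, h1.2.2.2.1⟩,
        Or.inl ⟨t', hb, htb', h1.2.2.2.2.1⟩, ?_, ?_⟩
      · rw [pr_slot ha, pr_slot hb]
        exact h1.2.2.2.2.2
      · rw [pr_slot ha]
        exact nx _ _ h1.2.2.2.1.1 h1.2.2.2.1.2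
    · apply sw
      rcases hb with hb | hb
      · rw [ha, hb] at hy
        exact zc b a _ t hb ha htb hy
      · rw [ha, hb] at hy
        exact zc b a _ t hb ha htb hy
  · rcases hb with ⟨t', hb, htb'⟩ | hb
    · rcases ha with ha | ha
      · rw [ha, hb] at hy
        exact zc a b _ t' ha hb htb' hy
      · rw [ha, hb] at hy
        exact zc a b _ t' ha hb htb' hy
    · exfalso
      rcases ha with ha | ha <;> rcases hb with hb | hb <;> rw [ha, hb] at hy <;> exact hy

/-- The edge has an end in the blob `β`. -/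
def PP (F : Fin n → GY n N Y) (β : Fin n × Fin n × Fin N) (e : Sym2 (Fin n)) : Prop :=
  ∃ i t, i ∈ e ∧ F i = .inl (.inr t) ∧ tri t = β

end

section

variable {H : SimpleGraph (Fin n)} {x y : Fin n} {F : Fin n → GY n N Y} {K m l : ℕ}
  {R : Fin n × Fin n × Fin n → Y → Y → Prop} {A : Fin n × Fin n × Fin n → Y → Prop}

/-- A set of edges of critical sets, all with an end in the blob `β`. -/
theorem image_facts (hxy : H.Adj x y) (hF : Function.Injective F)
    (hcb : ∀ J, Crit H K m l J → ∃ β : Fin n × Fin n × Fin N, ∀ v, On J v → gd0 F β v)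
    (hadj : ∀ i j, H.Adj i j → yg H x y R A (F i) (F j))
    {J : Finset (Sym2 (Fin n))} (hJ : InC (Crit H K m l) J) {β : Fin n × Fin n × Fin N}
    (hP : ∀ e ∈ J, PP F β e) :
    (∀ v, On J v → gd H x y F β v) ∧
      InC (Crit H K m l) (J.image (Sym2.map (pr x y F β.1))) ∧
      ∀ e ∈ J, e.map (pr x y F β.1) ≠ s(x, y) := by
  classical
  have key : ∀ e ∈ J, ∃ C, Crit H K m l C ∧ e ∈ C ∧ ∀ v, On C v → gd0 F β v := by
    intro e he
    obtain ⟨C, hC, heC⟩ := hJ e he
    obtain ⟨β', hβ'⟩ := hcb C hC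
    obtain ⟨i, t, hi, hit, htb⟩ := hP e he
    have h1 : β' = β := by
      rcases hβ' i ⟨e, heC, hi⟩ with ⟨t', ht', htb'⟩ | h | h
      · rw [hit] at ht'
        have h2 : t = t' := Sum.inr_injective (Sum.inl_injective ht')
        rw [← htb', ← h2, htb]
      · rw [hit] at h
        cases h
      · rw [hit] at h
        cases h
    rw [h1] at hβ'
    exact ⟨C, hC, heC, hβ'⟩
  have key2 : ∀ C, Crit H K m l C → (∀ v, On C v → gd0 F β v) → ∀ a b, s(a, b) ∈ C →
      gd H x y F β a ∧ gd H x y F β b ∧ H.Adj (pr x y F β.1 a) (pr x y F β.1 b) ∧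
      s(pr x y F β.1 a, pr x y F β.1 b) ≠ s(x, y) := by
    intro C hC hg a b hab
    exact (edge_gd (hadj a b (mem_ed.1 (hC.sub _ hab)))
      (hg a ⟨_, hab, Sym2.mem_mk_left _ _⟩) (hg b ⟨_, hab, Sym2.mem_mk_right _ _⟩)).2
  refine ⟨?_, ?_, ?_⟩
  · rintro v ⟨e, he, hv⟩
    obtain ⟨C, hC, heC, hg⟩ := key e he
    induction e using Sym2.ind with
    | _ a b =>
      have h1 := key2 C hC hg a b heC
      rcases Sym2.mem_iff.1 hv with rfl | rfl
      · exact h1.1
      · exact h1.2.1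
  · intro e' he'
    obtain ⟨e, he, rfl⟩ := mem_image.1 he'
    obtain ⟨C, hC, heC, hg⟩ := key e he
    have hgd : ∀ v, On C v → gd H x y F β v := by
      rintro v ⟨e, he, hv⟩
      induction e using Sym2.ind with
      | _ a b =>
        have h1 := key2 C hC hg a b he
        rcases Sym2.mem_iff.1 hv with rfl | rfl
        · exact h1.1
        · exact h1.2.1
    refine ⟨_, hC.image (pr x y F β.1) (fun u v hu hv h => pr_inj hxy hF (hgd u hu) (hgd v hv) h)
      (fun a b hab => (key2 C hC hg a b hab).2.2.1), mem_image_of_mem _ heC⟩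
  · intro e he
    obtain ⟨C, hC, heC, hg⟩ := key e he
    induction e using Sym2.ind with
    | _ a b =>
      rw [Sym2.map_mk]
      exact (key2 C hC hg a b heC).2.2.2

/-- Every member lies in one blob. -/
theorem one_blob (hG : G0Statement) (hadj : ∀ i j, H.Adj i j → yg H x y R A (F i) (F j))
    (hcb : ∀ J, Crit H K m l J → ∃ β : Fin n × Fin n × Fin N, ∀ v, On J v → gd0 F β v)
    (hF : Function.Injective F) (hxy : H.Adj x y) {B₁ : Finset (Sym2 (Fin n))}
    {𝒳 : Finset (Finset (Sym2 (Fin n)))} (Ru : GRule (Crit H K m l) x y B₁ 𝒳)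
    {B : Finset (Sym2 (Fin n))}
    (hB : B ∈ 𝒳) : ∃ β : Fin n × Fin n × Fin N, ∀ e ∈ B, PP F β e := by
  classical
  obtain ⟨σ, hσ⟩ := Ru.iso B hB
  have he0 : s(σ x, σ y) ∈ B := by
    rw [hσ]
    exact mem_image.2 ⟨s(x, y), Ru.exy, Sym2.map_mk _ _ _⟩
  have hBH : ∀ e ∈ B, e ∈ ed H := by
    intro e he
    obtain ⟨C, hC, heC⟩ := Ru.tri B hB e he
    exact hC.sub e heC
  obtain ⟨β, hβ⟩ : ∃ β : Fin n × Fin n × Fin N, PP F β s(σ x, σ y) := by
    obtain ⟨C, hC, heC⟩ := Ru.tri B hB _ he0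
    obtain ⟨β, hβ⟩ := hcb C hC
    have h1 := (edge_gd (hadj _ _ (mem_ed.1 (hBH _ he0))) (hβ (σ x) ⟨_, heC, Sym2.mem_mk_left _ _⟩)
      (hβ (σ y) ⟨_, heC, Sym2.mem_mk_right _ _⟩)).1
    rcases h1 with ⟨t, ht, htb, -⟩ | ⟨t, ht, htb, -⟩
    · exact ⟨β, _, t, Sym2.mem_mk_left _ _, ht, htb⟩
    · exact ⟨β, _, t, Sym2.mem_mk_right _ _, ht, htb⟩
  refine ⟨β, ?_⟩
  set D := B.filter (fun e => PP F β e) with hD
  set D' := B.filter (fun e => ¬ PP F β e) with hD'
  by_contra hcon
  have hne : D'.Nonempty := by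
    push Not at hcon
    obtain ⟨e, he, he'⟩ := hcon
    exact ⟨e, mem_filter.2 ⟨he, he'⟩⟩
  have hdis : Disjoint D D' := disjoint_filter_filter_not _ _ _
  have hcov : ∀ e, e ∈ B ↔ e ∈ D ∨ e ∈ D' := by
    intro e
    simp only [hD, hD', mem_filter]
    by_cases he : PP F β e <;> simp [he]
  have heD : s(σ x, σ y) ∈ D := mem_filter.2 ⟨he0, hβ⟩
  have hDtri : InC (Crit H K m l) D := fun e he => Ru.tri B hB e (mem_filter.1 he).1
  obtain ⟨f1, f2, f3⟩ := image_facts hxy hF hcb hadj hDtri (fun e he => (mem_filter.1 he).2)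
  have hsh : ∀ w, Shares D D' w → (F w = .inl (.inl β.1) ∨ F w = .inl (.inl β.2.1)) ∧
      H.Adj β.1 β.2.1 := by
    rintro w ⟨hw1, e, he, hwe⟩
    rcases f1 w hw1 with ⟨t, ht, htb, -⟩ | h1
    · exact absurd ⟨w, t, hwe, ht, htb⟩ (mem_filter.1 he).2
    · exact h1
  obtain ⟨s, t, hst, hs, ht⟩ := Ru.two B hB D D' ⟨_, heD⟩ hne hdis hcov
  have fin : ∀ s t : Fin n, F s = .inl (.inl β.1) → F t = .inl (.inl β.2.1) →
      Shares D D' s → Shares D D' t → H.Adj β.1 β.2.1 → False := by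
    intro s t hs1 ht1 hs ht hb
    have hnot : ¬ H.Adj s t := by
      intro h
      have h1 := hadj s t h
      rw [hs1, ht1] at h1
      exact h1
    have hsh' : ∀ v, Shares D D' v → v = s ∨ v = t := by
      intro w hw
      rcases (hsh w hw).1 with h1 | h1
      · exact Or.inl (hF (h1.trans hs1.symm))
      · exact Or.inr (hF (h1.trans ht1.symm))
    have hstD : s(s, t) ∉ D := fun h => hnot (mem_ed.1 (hBH _ (mem_filter.1 h).1))
    have hT1 := (TwoC.line (Ru.two B hB) hdis hcov hne hstD hsh').map (pr x y F β.1) (by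
      have hgd' : ∀ u, (∃ e ∈ insert s(s, t) D, u ∈ e) → gd H x y F β u := by
        rintro u ⟨e, he, hue⟩
        rcases mem_insert.1 he with rfl | he
        · rcases Sym2.mem_iff.1 hue with rfl | rfl
          · exact f1 _ hs.1
          · exact f1 _ ht.1
        · exact f1 _ ⟨e, he, hue⟩
      intro u v hu hv huv
      exact pr_inj hxy hF (hgd' u hu) (hgd' v hv) huv)
    have himg : (insert s(s, t) D).image (Sym2.map (pr x y F β.1)) =
        insert s(x, y) (D.image (Sym2.map (pr x y F β.1))) := by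
      rw [image_insert, Sym2.map_mk, pr_one hs1, pr_two hb.ne ht1]
    rw [himg] at hT1
    have hsub := Ru.ext _ (by
      intro e he
      rcases mem_insert.1 he with rfl | he
      · exact Ru.tri B₁ Ru.mem _ Ru.exy
      · exact f2 e he) hT1 (mem_insert_self _ _)
    -- the graph with the edge set `B`
    have hed : ∀ e, e ∈ ed (SimpleGraph.fromEdgeSet (B : Set (Sym2 (Fin n)))) ↔ e ∈ B := by
      intro e
      induction e using Sym2.ind with
      | _ a b =>
        rw [mem_ed, SimpleGraph.fromEdgeSet_adj, mem_coe]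
        exact ⟨fun h => h.1, fun h => ⟨h, (mem_ed.1 (hBH _ h)).ne⟩⟩
    have hedB : ed (SimpleGraph.fromEdgeSet (B : Set (Sym2 (Fin n)))) = B := by
      ext e
      exact hed e
    refine hG n (SimpleGraph.fromEdgeSet (B : Set (Sym2 (Fin n)))) D D' s(σ x, σ y) s t
      (fun v => σ (pr x y F β.1 v)) (by rw [hedB]; exact Ru.two B hB) hdis
      (by rw [hedB]; exact hcov) heD hne ?_ hsh' ?_ ?_ ?_
    · intro h
      rw [SimpleGraph.fromEdgeSet_adj] at h
      exact hnot (mem_ed.1 (hBH _ h.1))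
    · intro u v hu hv huv
      exact pr_inj hxy hF (f1 u hu) (f1 v hv) (σ.injective huv)
    · intro e he
      have h1 : e.map (fun v => σ (pr x y F β.1 v)) = (e.map (pr x y F β.1)).map σ := by
        rw [Sym2.map_map]
        rfl
      rw [h1]
      refine ⟨?_, ?_⟩
      · rw [hed, hσ]
        exact mem_image_of_mem _ (hsub (mem_insert_of_mem (mem_image_of_mem _ he)))
      · intro h2
        apply f3 e he
        apply Sym2.map.injective σ.injective
        rw [h2, Sym2.map_mk]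
    · rw [pr_one hs1, pr_two hb.ne ht1]
  obtain ⟨hs1, hb⟩ := hsh s hs
  obtain ⟨ht1, -⟩ := hsh t ht
  rcases hs1 with hs1 | hs1 <;> rcases ht1 with ht1 | ht1
  · exact hst (hF (hs1.trans ht1.symm))
  · exact fin s t hs1 ht1 hs ht hb
  · exact fin t s ht1 hs1 ht hs hb
  · exact hst (hF (hs1.trans ht1.symm))

end

/-! ## The Lipschitz function -/

/-- The Lipschitz function. -/
noncomputable def rho (H : SimpleGraph (Fin n)) (x y : Fin n) (J : Finset (Sym2 (Fin n)))
    (β : Fin n × Fin n × Fin N) : GY n N Y → ℕ := by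
  classical exact fun p => match p with
  | .inl (.inr t) => if tri t = β then DS H J t.2.2.2 else min (DS H J x) (DS H J y) + 1
  | .inl (.inl u) => if u = β.1 then DS H J x else if u = β.2.1 then DS H J y else
      min (DS H J x) (DS H J y) + 1
  | .inr c => if c.1.1 = β.1 ∧ c.1.2.1 = β.2.1 then
      (if H.Adj x c.1.2.2 then DS H J x else DS H J y) else min (DS H J x) (DS H J y) + 1

theorem rho_lip {H : SimpleGraph (Fin n)} (hcon : H.Connected) {x y : Fin n} (hxy : H.Adj x y)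
    {R : Fin n × Fin n × Fin n → Y → Y → Prop} {A : Fin n × Fin n × Fin n → Y → Prop}
    {J : Finset (Sym2 (Fin n))} (hJ : ∃ s, On J s) (β : Fin n × Fin n × Fin N)
    (p p' : GY n N Y) (h : yg H x y R A p p') :
    rho H x y J β p ≤ rho H x y J β p' + 1 := by
  classical
  have hx := DS_lip hcon hJ hxy
  have hy := DS_lip hcon hJ hxy.symm
  have far : ∀ t : Slot n N, tri t ≠ β → rho (Y := Y) H x y J β (.inl (.inr t)) =
      min (DS H J x) (DS H J y) + 1 := by
    intro t ht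
    simp only [rho, if_neg ht]
  have near : ∀ t : Slot n N, tri t = β → rho (Y := Y) H x y J β (.inl (.inr t)) =
      DS H J t.2.2.2 := by
    intro t ht
    simp only [rho, if_pos ht]
  have vz : ∀ u : Fin n, rho (N := N) (Y := Y) H x y J β (.inl (.inl u)) = DS H J x ∨
      rho (N := N) (Y := Y) H x y J β (.inl (.inl u)) = DS H J y ∨
      rho (N := N) (Y := Y) H x y J β (.inl (.inl u)) = min (DS H J x) (DS H J y) + 1 := by
    intro u
    simp only [rho]
    split_ifs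
    · exact Or.inl rfl
    · exact Or.inr (Or.inl rfl)
    · exact Or.inr (Or.inr rfl)
  have vc : ∀ c, rho (N := N) (Y := Y) H x y J β (.inr c) = DS H J x ∨
      rho (N := N) (Y := Y) H x y J β (.inr c) = DS H J y ∨
      rho (N := N) (Y := Y) H x y J β (.inr c) = min (DS H J x) (DS H J y) + 1 := by
    intro c
    simp only [rho]
    split_ifs
    · exact Or.inl rfl
    · exact Or.inr (Or.inl rfl)
    · exact Or.inr (Or.inr rfl)
  -- a free vertex and a slot
  have zs : ∀ (u : Fin n) (t : Slot n N), zAdj H x y u t →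
      rho (Y := Y) H x y J β (.inl (.inl u)) ≤ rho (Y := Y) H x y J β (.inl (.inr t)) + 1 ∧
      rho (Y := Y) H x y J β (.inl (.inr t)) ≤ rho (Y := Y) H x y J β (.inl (.inl u)) + 1 := by
    intro u t hz
    by_cases ht : tri t = β
    · rw [near t ht]
      have hb1 : t.1 = β.1 := by rw [← ht]; rfl
      have hb2 : t.2.1 = β.2.1 := by rw [← ht]; rfl
      rcases hz.2.2 with ⟨h1, h2⟩ | ⟨h1, h2⟩
      · have e : rho (N := N) (Y := Y) H x y J β (.inl (.inl u)) = DS H J x := by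
          simp only [rho]
          rw [if_pos (h1.trans hb1)]
        rw [e]
        exact ⟨DS_lip hcon hJ h2, DS_lip hcon hJ h2.symm⟩
      · have e : rho (N := N) (Y := Y) H x y J β (.inl (.inl u)) = DS H J y := by
          have h3 : u ≠ β.1 := by
            intro h4
            have h5 := hz.1
            rw [hb1, ← h4, h1] at h5
            exact h5.ne rfl
          simp only [rho]
          rw [if_neg h3, if_pos (h1.trans hb2)]
        rw [e]
        exact ⟨DS_lip hcon hJ h2, DS_lip hcon hJ h2.symm⟩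
    · rw [far t ht]
      have := vz u
      omega
  -- an attachment and a slot
  have cs : ∀ (c : (Fin n × Fin n × Fin n) × Y) (t : Slot n N), twAdj H x y c.1 t →
      rho (N := N) H x y J β (.inr c) ≤ rho (Y := Y) H x y J β (.inl (.inr t)) + 1 ∧
      rho (Y := Y) H x y J β (.inl (.inr t)) ≤ rho (N := N) H x y J β (.inr c) + 1 := by
    intro c t hz
    obtain ⟨e1, e2, e3, v, hv⟩ := hz
    by_cases ht : tri t = β
    · rw [near t ht]
      have hb1 : t.1 = β.1 := by rw [← ht]; rfl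
      have hb2 : t.2.1 = β.2.1 := by rw [← ht]; rfl
      by_cases hxw : H.Adj x t.2.2.2
      · have e : rho (N := N) H x y J β (.inr c) = DS H J x := by
          simp only [rho]
          rw [if_pos ⟨e1 ▸ hb1, e2 ▸ hb2⟩, if_pos (e3 ▸ hxw)]
        rw [e]
        exact ⟨DS_lip hcon hJ hxw, DS_lip hcon hJ hxw.symm⟩
      · have e : rho (N := N) H x y J β (.inr c) = DS H J y := by
          simp only [rho]
          rw [if_pos ⟨e1 ▸ hb1, e2 ▸ hb2⟩, if_neg (e3 ▸ hxw)]
        have hyw : H.Adj y t.2.2.2 := by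
          rcases hv.2.2 with ⟨-, h1⟩ | ⟨-, h1⟩
          · exact absurd h1 hxw
          · exact h1
        rw [e]
        exact ⟨DS_lip hcon hJ hyw, DS_lip hcon hJ hyw.symm⟩
    · rw [far t ht]
      have := vc c
      omega
  rcases p with (u | t) | c <;> rcases p' with (u' | t') | c'
  · exact (h : False).elim
  · exact (zs u t' h).1
  · exact (h : False).elim
  · exact (zs u' t h).2
  · have h1 : blobAdj H x y t t' := h
    have h2 : tri t = tri t' := by
      simp only [tri, h1.1, h1.2.1, h1.2.2.1]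
    by_cases ht : tri t = β
    · rw [near t ht, near t' (h2 ▸ ht)]
      exact DS_lip hcon hJ h1.2.2.2.2.2
    · rw [far t ht, far t' (h2 ▸ ht)]
      omega
  · exact (cs c' t h.2).2
  · exact (h : False).elim
  · exact (cs c t' h.2).1
  · have h1 : c.1 = c'.1 := h.1
    simp only [rho, h1]
    omega

/-- The gadget with attachments of an edge chosen by the rule does not contain `H`. -/
theorem rule_free (hG : G0Statement) {H : SimpleGraph (Fin n)} {x y : Fin n} {K m l : ℕ}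
    (hK : 2 ≤ K) (hL : Least H K m l) (hcon : H.Connected) {B₁ : Finset (Sym2 (Fin n))}
    {𝒳 : Finset (Finset (Sym2 (Fin n)))} (Ru : GRule (Crit H K m l) x y B₁ 𝒳) :
    AttFree H K x y := by
  classical
  intro N Y R A hA F hF hadj
  have hxy : H.Adj x y := by
    obtain ⟨C, hC, heC⟩ := Ru.tri B₁ Ru.mem _ Ru.exy
    exact mem_ed.1 (hC.sub _ heC)
  have hcb : ∀ J, Crit H K m l J → ∃ β : Fin n × Fin n × Fin N, ∀ v, On J v → gd0 F β v :=
    fun J hJ => crit_blob hxy hK hL hA hadj hJ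
  have hblob : ∀ B : {B // B ∈ 𝒳}, ∃ β : Fin n × Fin n × Fin N, ∀ e ∈ B.1, PP F β e :=
    fun B => one_blob hG hadj hcb hF hxy Ru B.2
  choose β hβ using hblob
  have facts := fun B : {B // B ∈ 𝒳} => image_facts hxy hF hcb hadj (Ru.tri B.1 B.2) (hβ B)
  -- the map on the members
  have hΨ : ∀ B : {B // B ∈ 𝒳}, B.1.image (Sym2.map (pr x y F (β B).1)) ∈ 𝒳 := by
    intro B
    obtain ⟨σ, hσ⟩ := Ru.iso B.1 B.2
    refine Ru.cls _ (fun v => pr x y F (β B).1 (σ v)) ?_ ?_ (facts B).2.1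
    · intro u v hu hv huv
      have hon : ∀ w, On B₁ w → On B.1 (σ w) := by
        rintro w ⟨e, he, hw⟩
        rw [hσ]
        exact ⟨e.map σ, mem_image_of_mem _ he, Sym2.mem_map.2 ⟨w, hw, rfl⟩⟩
      exact σ.injective (pr_inj hxy hF ((facts B).1 _ (hon u hu)) ((facts B).1 _ (hon v hv)) huv)
    · have h1 : B.1.image (Sym2.map (pr x y F (β B).1)) =
          (B₁.image (Sym2.map σ)).image (Sym2.map (pr x y F (β B).1)) := by
        rw [← hσ]
      rw [h1, image_image]
      apply Finset.image_congr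
      intro e _
      simp only [Function.comp_apply, Sym2.map_map]
  set Ψ : {B // B ∈ 𝒳} → {B // B ∈ 𝒳} := fun B => ⟨_, hΨ B⟩ with hΨdef
  have hΨ1 : ∀ B, Ψ B ≠ ⟨B₁, Ru.mem⟩ := by
    intro B h
    have h1 : s(x, y) ∈ (Ψ B).1 := by
      rw [h]
      exact Ru.exy
    obtain ⟨e, he, hee⟩ := mem_image.1 h1
    exact (facts B).2.2 e he hee
  have hoff : ∀ B, ¬ On (Ψ B).1 x ∧ ¬ On (Ψ B).1 y := by
    intro B
    refine Ru.off _ (Ψ B).2 (fun h => hΨ1 B (Subtype.ext h))
  have honΨ : ∀ B : {B // B ∈ 𝒳}, ∀ v, On B.1 v → On (Ψ B).1 (pr x y F (β B).1 v) := by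
    rintro B v ⟨e, he, hv⟩
    exact ⟨_, mem_image_of_mem _ he, Sym2.mem_map.2 ⟨v, hv, rfl⟩⟩
  have hslot : ∀ B : {B // B ∈ 𝒳}, ∀ v, On B.1 v → ∃ t : Slot n N, F v = .inl (.inr t) ∧
      tri t = β B ∧ pr x y F (β B).1 v = t.2.2.2 := by
    intro B v hv
    have h1 := honΨ B v hv
    rcases (facts B).1 v hv with ⟨t, ht, htb, -⟩ | ⟨h2 | h2, hb⟩
    · exact ⟨t, ht, htb, pr_slot ht⟩
    · rw [pr_one h2] at h1
      exact absurd h1 (hoff B).1
    · rw [pr_two hb.ne h2] at h1
      exact absurd h1 (hoff B).2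
  have hne : ∀ B : {B // B ∈ 𝒳}, ∃ v, On B.1 v := by
    intro B
    obtain ⟨σ, hσ⟩ := Ru.iso B.1 B.2
    refine ⟨σ x, s(σ x, σ y), ?_, Sym2.mem_mk_left _ _⟩
    rw [hσ]
    exact mem_image.2 ⟨s(x, y), Ru.exy, Sym2.map_mk _ _ _⟩
  have hox : On B₁ x := ⟨_, Ru.exy, Sym2.mem_mk_left _ _⟩
  have hoy : On B₁ y := ⟨_, Ru.exy, Sym2.mem_mk_right _ _⟩
  -- values of the Lipschitz function
  have rin : ∀ (B : {B // B ∈ 𝒳}) (J : Finset (Sym2 (Fin n))) (v : Fin n), On B.1 v →
      rho H x y J (β B) (F v) = DS H J (pr x y F (β B).1 v) := by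
    intro B J v hv
    obtain ⟨t, ht, htb, hp⟩ := hslot B v hv
    rw [ht, hp]
    simp only [rho]
    rw [if_pos htb]
  have rout : ∀ (B B' : {B // B ∈ 𝒳}) (J : Finset (Sym2 (Fin n))) (v : Fin n), β B ≠ β B' →
      On B'.1 v → rho H x y J (β B) (F v) = min (DS H J x) (DS H J y) + 1 := by
    intro B B' J v hne hv
    obtain ⟨t, ht, htb, hp⟩ := hslot B' v hv
    rw [ht]
    simp only [rho]
    rw [if_neg (fun h => hne (h.symm.trans htb))]
  have rl : ∀ (J : Finset (Sym2 (Fin n))) (γ : Fin n × Fin n × Fin N) (u v : Fin n),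
      (∃ s, On J s) → rho H x y J γ (F u) ≤ rho H x y J γ (F v) + H.dist u v := by
    intro J γ u v hJ
    exact lip_dist hcon (fun w => rho H x y J γ (F w))
      (fun a b hab => rho_lip hcon hxy hJ γ _ _ (hadj a b hab)) u v
  refine spider (X := {B // B ∈ 𝒳}) ⟨B₁, Ru.mem⟩ Ψ hΨ1 (fun B B' => β B = β B')
    ⟨fun _ => rfl, fun h => h.symm, fun h h' => h.trans h'⟩ ?_
    (fun B B' => dd H B.1 B'.1) (fun B => min (DS H B.1 x) (DS H B.1 y)) ?_ ?_ ?_
  · -- injectivity
    have half : ∀ B B' : {B // B ∈ 𝒳}, β B = β B' → Ψ B = Ψ B' → B.1 ⊆ B'.1 := by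
      intro B B' hbb hpp e he
      have h1 : e.map (pr x y F (β B).1) ∈ (Ψ B').1 := by
        rw [← hpp]
        exact mem_image_of_mem _ he
      obtain ⟨e', he', hee⟩ := mem_image.1 h1
      rw [← hbb] at hee
      have h2 : e' = e := by
        refine map_inj_of (pr x y F (β B).1) {v | gd H x y F (β B) v}
          (fun u hu v hv h => pr_inj hxy hF hu hv h) e' e ?_ ?_ hee
        · intro v hv
          have := (facts B').1 v ⟨e', he', hv⟩
          rw [← hbb] at this
          exact this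
        · intro v hv
          exact (facts B).1 v ⟨e, he, hv⟩
      rw [← h2]
      exact he'
    intro B B' hbb hpp
    exact Subtype.ext (Subset.antisymm (half B B' hbb hpp) (half B' B hbb.symm hpp.symm))
  · intro B B' hbb
    obtain ⟨u, u', hu, hu', hd⟩ := dd_att H (hne B) (hne B')
    have h1 := rl (Ψ B').1 (β B') u u' (hne _)
    rw [rin B' _ u' hu', DS_zero H (honΨ B' u' hu')] at h1
    have h2 := rin B (Ψ B').1 u hu
    rw [hbb] at h2
    rw [h2] at h1
    have h3 := honΨ B u hu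
    rw [hbb] at h3
    have h4 := dd_le_DS H h3 (hne (Ψ B'))
    show dd H (Ψ B).1 (Ψ B').1 ≤ dd H B.1 B'.1
    omega
  · intro B B' hbb
    obtain ⟨u, u', hu, hu', hd⟩ := dd_att H (hne B) (hne B')
    have h1 := rl (Ψ B).1 (β B) u' u (hne _)
    rw [rin B _ u hu, DS_zero H (honΨ B u hu), rout B B' _ u' hbb hu'] at h1
    rw [SimpleGraph.dist_comm] at h1
    show min (DS H (Ψ B).1 x) (DS H (Ψ B).1 y) < dd H B.1 B'.1
    omega
  · intro B
    show dd H B₁ B.1 ≤ min (DS H B.1 x) (DS H B.1 y)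
    exact le_min (dd_le_DS H hox (hne B)) (dd_le_DS H hoy (hne B))

end Gcl

theorem genclo_proof (hG : G0Statement) : GenCloStatement := by
  classical
  intro n K H hK _ hcon hcol
  have h0 : ¬ Col K (ed H) := by
    rintro ⟨κ, hκ⟩
    exact hcol ⟨SimpleGraph.Coloring.mk κ (fun {a b} hab => hκ a b (mem_ed.2 hab))⟩
  obtain ⟨m, l, J, hJ, hL⟩ := exists_crit H K h0
  obtain ⟨x, y, B₁, 𝒳, Ru⟩ := gtrb H (Crit H K m l) (fun J hJ => hJ.sub)
    (fun J hJ => hJ.twoC hL) (fun J hJ v₀ => hJ.ne hK v₀) ⟨J, hJ⟩ hcon.nonempty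
  refine ⟨x, y, ?_, Gcl.rule_free hG hK hL hcon Ru⟩
  obtain ⟨C, hC, heC⟩ := Ru.tri B₁ Ru.mem _ Ru.exy
  exact mem_ed.1 (hC.sub _ heC)

/-- The general closure lemma. -/
theorem genclo_main : GenCloStatement := genclo_proof g0_proof

end MP3240M
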