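import Pool.Agent.Lib.MP_3240be_co.M64.Defs
import Pool.Agent.Lib.MP_3240be_co.S36.Defs

/-!
# MP_3240be_co, Theorem M: embeddings of `H` into one colour class (no host)
-/

set_option autoImplicit false

namespace MP3240M

open Finset MP3240T MP3240W

/-- Row EM1 (embedding for RULE 1).  `r` sets of `n` vertices, completely joined; `h` vertices `U`
joined to all of them; `v` is joined to `E j`, `j ≠ j₀`, and to the `n` or more elements of `S`,
which are joined to `U` and to `E j`, `j ≠ j₀`. -/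
theorem em1 {n r h : ℕ} {H : SimpleGraph (Fin n)} (κ : Fin n → Option (Fin r))
    (prop : ∀ i j, H.Adj i j → κ i ≠ κ j)
    (cardA : (univ.filter (fun x => κ x = none)).card = h + 1) {V : Type} (G : SimpleGraph V)
    (E : Fin r → Fin n → V) (U : Fin h → V) (v : V) (j₀ : Fin r) (S : Finset V)
    (hE : ∀ j, Function.Injective (E j)) (hU : Function.Injective U)
    (hEE : ∀ j j' x y, j ≠ j' → G.Adj (E j x) (E j' y)) (hUE : ∀ s j x, G.Adj (U s) (E j x))
    (hS : n ≤ S.card) (hvS : ∀ a ∈ S, G.Adj v a) (hUS : ∀ a ∈ S, ∀ s, G.Adj (U s) a)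
    (hSE : ∀ j, j ≠ j₀ → ∀ a ∈ S, ∀ x, G.Adj a (E j x))
    (hvE : ∀ j, j ≠ j₀ → ∀ x, G.Adj v (E j x)) (hS0 : ∀ a ∈ S, ∀ x, a ≠ E j₀ x)
    (hv0 : ∀ x, v ≠ E j₀ x) (hvU : ∀ s, v ≠ U s) : Emb H G := by
  classical
  obtain ⟨α, hα⟩ : ∃ α, κ α = none := by
    have h1 : (univ.filter (fun x => κ x = none)).Nonempty := card_pos.1 (by omega)
    obtain ⟨α, hα⟩ := h1
    exact ⟨α, (mem_filter.1 hα).2⟩
  set B : Finset (Fin n) := (univ.filter (fun x => κ x = none)).erase α with hB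
  have hBc : B.card = h := by
    rw [hB, Finset.card_erase_of_mem (by simp [hα]), cardA]
    rfl
  have hBm : ∀ x, x ∈ B ↔ x ≠ α ∧ κ x = none := by
    intro x
    simp [hB]
  have hi : ∃ i : {x // x ∈ B} → Fin h, Function.Injective i :=
    ⟨fun x => Fin.cast hBc (B.equivFin x), fun x y hxy =>
      B.equivFin.injective (Fin.cast_injective hBc hxy)⟩
  obtain ⟨i, hi⟩ := hi
  obtain ⟨e, he1, he2⟩ := Pool.Agent.Lib.MP_3240be_co.H36.exists_inj S n hS
  let f : Fin n → V := fun x => match κ x with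
    | none => if hx : x ∈ B then U (i ⟨x, hx⟩) else v
    | some j => if j = j₀ ∧ H.Adj α x then e x else E j x
  have hf : ∀ x, (x = α ∧ f x = v) ∨ (κ x = none ∧ ∃ hx : x ∈ B, f x = U (i ⟨x, hx⟩)) ∨
      (κ x = some j₀ ∧ f x = e x) ∨
      ∃ j, κ x = some j ∧ ¬ (j = j₀ ∧ H.Adj α x) ∧ f x = E j x := by
    intro x
    rcases hκ : κ x with _ | j
    · by_cases hx : x ∈ B
      · refine Or.inr (Or.inl ⟨rfl, hx, ?_⟩)
        simp only [f, hκ]
        rw [dif_pos hx]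
      · left
        refine ⟨?_, ?_⟩
        · by_contra hne
          exact hx ((hBm x).2 ⟨hne, hκ⟩)
        · simp only [f, hκ]
          rw [dif_neg hx]
    · by_cases hj : j = j₀ ∧ H.Adj α x
      · refine Or.inr (Or.inr (Or.inl ⟨by rw [hj.1], ?_⟩))
        simp only [f, hκ]
        rw [if_pos hj]
      · refine Or.inr (Or.inr (Or.inr ⟨j, rfl, hj, ?_⟩))
        simp only [f, hκ]
        rw [if_neg hj]
  refine ⟨f, ?_, ?_⟩
  · -- injectivity
    intro x y hxy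
    rcases hf x with ⟨rfl, hx⟩ | ⟨-, hx, hx'⟩ | ⟨hj, hx⟩ | ⟨j, hj, hj', hx⟩ <;>
      rcases hf y with ⟨hy0, hy⟩ | ⟨-, hy, hy'⟩ | ⟨hl, hy⟩ | ⟨l, hl, hl', hy⟩
    · exact hy0.symm
    · exact absurd (hx.symm.trans (hxy.trans hy')) (hvU _)
    · exact absurd (hx.symm.trans (hxy.trans hy)) (hvS _ (he2 y)).ne
    · by_cases h1 : l = j₀
      · subst h1
        exact absurd (hx.symm.trans (hxy.trans hy)) (hv0 _)
      · exact absurd (hx.symm.trans (hxy.trans hy)) (hvE l h1 _).ne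
    · exact absurd (hy.symm.trans (hxy.symm.trans hx')) (hvU _)
    · have h1 := hi (hU (hx'.symm.trans (hxy.trans hy')))
      exact congrArg Subtype.val h1
    · exact absurd (hx'.symm.trans (hxy.trans hy)) (hUS _ (he2 y) _).ne
    · exact absurd (hx'.symm.trans (hxy.trans hy)) (hUE _ _ _).ne
    · exact absurd (hy.symm.trans (hxy.symm.trans hx)) (hvS _ (he2 x)).ne
    · exact absurd (hy'.symm.trans (hxy.symm.trans hx)) (hUS _ (he2 x) _).ne
    · exact he1 (hx.symm.trans (hxy.trans hy))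
    · by_cases h1 : l = j₀
      · subst h1
        exact absurd (hx.symm.trans (hxy.trans hy)) (hS0 _ (he2 x) _)
      · exact absurd (hx.symm.trans (hxy.trans hy)) (hSE l h1 _ (he2 x) _).ne
    · by_cases h1 : j = j₀
      · subst h1
        exact absurd (hy.symm.trans (hxy.symm.trans hx)) (hv0 _)
      · exact absurd (hy.symm.trans (hxy.symm.trans hx)) (hvE j h1 _).ne
    · exact absurd (hy'.symm.trans (hxy.symm.trans hx)) (hUE _ _ _).ne
    · by_cases h1 : j = j₀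
      · subst h1
        exact absurd (hy.symm.trans (hxy.symm.trans hx)) (hS0 _ (he2 y) _)
      · exact absurd (hy.symm.trans (hxy.symm.trans hx)) (hSE j h1 _ (he2 y) _).ne
    · have h1 : E j x = E l y := hx.symm.trans (hxy.trans hy)
      by_cases hjl : j = l
      · subst hjl
        exact hE j h1
      · exact absurd h1 (hEE j l x y hjl).ne
  · -- adjacency
    intro x y hxy
    have hκ := prop x y hxy
    rcases hf x with ⟨rfl, hx⟩ | ⟨hx0, hx, hx'⟩ | ⟨hj, hx⟩ | ⟨j, hj, hj', hx⟩ <;>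
      rcases hf y with ⟨hy0, hy⟩ | ⟨hy0, hy, hy'⟩ | ⟨hl, hy⟩ | ⟨l, hl, hl', hy⟩
    · rw [hy0] at hxy
      exact absurd rfl hxy.ne
    · exact absurd (hα.trans hy0.symm) hκ
    · rw [hx, hy]
      exact hvS _ (he2 y)
    · rw [hx, hy]
      exact hvE l (fun h1 => hl' ⟨h1, hxy⟩) _
    · rw [hy0] at hκ
      exact absurd (hx0.trans hα.symm) hκ
    · exact absurd (hx0.trans hy0.symm) hκ
    · rw [hx', hy]
      exact hUS _ (he2 y) _
    · rw [hx', hy]
      exact hUE _ _ _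
    · rw [hx, hy]
      exact (hvS _ (he2 x)).symm
    · rw [hx, hy']
      exact (hUS _ (he2 x) _).symm
    · exact absurd (hj.trans hl.symm) hκ
    · rw [hx, hy]
      refine hSE l (fun h1 => ?_) _ (he2 x) _
      rw [hj, hl, h1] at hκ
      exact hκ rfl
    · rw [hx, hy]
      rw [hy0] at hxy
      exact (hvE j (fun h1 => hj' ⟨h1, hxy.symm⟩) _).symm
    · rw [hx, hy']
      exact (hUE _ _ _).symm
    · rw [hx, hy]
      refine (hSE j (fun h1 => ?_) _ (he2 y) _).symm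
      rw [hj, hl, h1] at hκ
      exact hκ rfl
    · have hjl : j ≠ l := by
        intro h0
        rw [hj, hl, h0] at hκ
        exact hκ rfl
      rw [hx, hy]
      exact hEE j l x y hjl

/-- Row EMA (embedding from `(A*)`).  `E j` generic vertices of the kind `j`, `Lo j` slots of the
kind `j` (joined to the generic vertices of the other kind), `U` joined to all these, `Tw` joined
to the slots. -/
theorem ema {n h : ℕ} {H : SimpleGraph (Fin n)} (hA : AStar H h) {V : Type} (G : SimpleGraph V)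
    (E Lo : Fin 2 → Fin n → V) (U : Fin h → V) (Tw : Fin n → V)
    (hE : ∀ j, Function.Injective (E j)) (hLo : ∀ j, Function.Injective (Lo j))
    (hU : Function.Injective U) (hTw : Function.Injective Tw)
    (hEE : ∀ j j' x y, j ≠ j' → G.Adj (E j x) (E j' y))
    (hLE : ∀ j j' x y, j ≠ j' → G.Adj (Lo j x) (E j' y))
    (hUE : ∀ s j x, G.Adj (U s) (E j x)) (hUL : ∀ s j x, G.Adj (U s) (Lo j x))
    (hTL : ∀ s j x, G.Adj (Tw s) (Lo j x)) (hLE0 : ∀ j x y, Lo j x ≠ E j y)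
    (hLL : ∀ j j' x y, j ≠ j' → Lo j x ≠ Lo j' y) (hTE : ∀ s j x, Tw s ≠ E j x)
    (hTU : ∀ s s', Tw s ≠ U s') : Emb H G := by
  classical
  obtain ⟨I, X, κ, hI, hN, hX, hXc, hIX, hκ⟩ := hA
  obtain ⟨i, hi⟩ : ∃ i : {x // x ∈ X} → Fin h, Function.Injective i :=
    ⟨fun x => Fin.castLE hXc (X.equivFin x), fun x y hxy =>
      X.equivFin.injective (Fin.castLE_injective hXc hxy)⟩
  set nb : Fin n → Prop := fun x => ∃ a ∈ I, H.Adj a x with hnb
  set ix : Fin n → Fin 2 := fun x => if κ x then 1 else 0 with hix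
  have hix2 : ∀ x y, κ x ≠ κ y → ix x ≠ ix y := by
    intro x y h1
    simp only [hix]
    cases h2 : κ x <;> cases h3 : κ y <;> simp_all
  let f : Fin n → V := fun x => if hx : x ∈ X then U (i ⟨x, hx⟩) else if x ∈ I then Tw x else
    if nb x then Lo (ix x) x else E (ix x) x
  have hf : ∀ x, (∃ hx : x ∈ X, f x = U (i ⟨x, hx⟩)) ∨ (x ∉ X ∧ x ∈ I ∧ f x = Tw x) ∨
      (x ∉ X ∧ x ∉ I ∧ nb x ∧ f x = Lo (ix x) x) ∨
      (x ∉ X ∧ x ∉ I ∧ ¬ nb x ∧ f x = E (ix x) x) := by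
    intro x
    by_cases h1 : x ∈ X
    · refine Or.inl ⟨h1, ?_⟩
      simp only [f]
      rw [dif_pos h1]
    · by_cases h2 : x ∈ I
      · refine Or.inr (Or.inl ⟨h1, h2, ?_⟩)
        simp only [f]
        rw [dif_neg h1, if_pos h2]
      · by_cases h3 : nb x
        · refine Or.inr (Or.inr (Or.inl ⟨h1, h2, h3, ?_⟩))
          simp only [f]
          rw [dif_neg h1, if_neg h2, if_pos h3]
        · refine Or.inr (Or.inr (Or.inr ⟨h1, h2, h3, ?_⟩))
          simp only [f]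
          rw [dif_neg h1, if_neg h2, if_neg h3]
  -- half of the adjacency
  have hadj : ∀ x y, H.Adj x y → G.Adj (f x) (f y) := by
    intro x y hxy
    rcases hf x with ⟨hx, ex⟩ | ⟨hx1, hx2, ex⟩ | ⟨hx1, hx2, hx3, ex⟩ | ⟨hx1, hx2, hx3, ex⟩ <;>
      rcases hf y with ⟨hy, ey⟩ | ⟨hy1, hy2, ey⟩ | ⟨hy1, hy2, hy3, ey⟩ | ⟨hy1, hy2, hy3, ey⟩
    · exact absurd hxy (hX x hx y hy)
    · exact absurd hx (hIX y hy2 x hxy.symm)
    · rw [ex, ey]; exact hUL _ _ _
    · rw [ex, ey]; exact hUE _ _ _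
    · exact absurd hy (hIX x hx2 y hxy)
    · exact absurd hxy (hI x hx2 y hy2)
    · rw [ex, ey]; exact hTL _ _ _
    · exact absurd ⟨x, hx2, hxy⟩ hy3
    · rw [ex, ey]; exact (hUL _ _ _).symm
    · rw [ex, ey]; exact (hTL _ _ _).symm
    · obtain ⟨a, ha, hax⟩ := hx3
      obtain ⟨b, hb, hby⟩ := hy3
      exact absurd hxy (hN a ha b hb x y hax hby)
    · rw [ex, ey]; exact hLE _ _ _ _ (hix2 _ _ (hκ x y hxy hx2 hy2 hx1 hy1))
    · rw [ex, ey]; exact (hUE _ _ _).symm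
    · exact absurd ⟨y, hy2, hxy.symm⟩ hx3
    · rw [ex, ey]; exact (hLE _ _ _ _ (hix2 _ _ (hκ x y hxy hx2 hy2 hx1 hy1)).symm).symm
    · rw [ex, ey]; exact hEE _ _ _ _ (hix2 _ _ (hκ x y hxy hx2 hy2 hx1 hy1))
  refine ⟨f, ?_, hadj⟩
  intro x y hxy
  rcases hf x with ⟨hx, ex⟩ | ⟨hx1, hx2, ex⟩ | ⟨hx1, hx2, hx3, ex⟩ | ⟨hx1, hx2, hx3, ex⟩ <;>
    rcases hf y with ⟨hy, ey⟩ | ⟨hy1, hy2, ey⟩ | ⟨hy1, hy2, hy3, ey⟩ | ⟨hy1, hy2, hy3, ey⟩ <;>
    rw [ex, ey] at hxy
  · exact congrArg Subtype.val (hi (hU hxy))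
  · exact absurd hxy.symm (hTU _ _)
  · exact absurd hxy (hUL _ _ _).ne
  · exact absurd hxy (hUE _ _ _).ne
  · exact absurd hxy (hTU _ _)
  · exact hTw hxy
  · exact absurd hxy (hTL _ _ _).ne
  · exact absurd hxy (hTE _ _ _)
  · exact absurd hxy.symm (hUL _ _ _).ne
  · exact absurd hxy.symm (hTL _ _ _).ne
  · by_cases h1 : ix x = ix y
    · rw [h1] at hxy
      exact hLo _ hxy
    · exact absurd hxy (hLL _ _ _ _ h1)
  · by_cases h1 : ix x = ix y
    · rw [h1] at hxy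
      exact absurd hxy (hLE0 _ _ _)
    · exact absurd hxy (hLE _ _ _ _ h1).ne
  · exact absurd hxy.symm (hUE _ _ _).ne
  · exact absurd hxy.symm (hTE _ _ _)
  · by_cases h1 : ix x = ix y
    · rw [h1] at hxy
      exact absurd hxy.symm (hLE0 _ _ _)
    · exact absurd hxy.symm (hLE _ _ _ _ (Ne.symm h1)).ne
  · by_cases h1 : ix x = ix y
    · rw [h1] at hxy
      exact hE _ hxy
    · exact absurd hxy (hEE _ _ _ _ h1).ne

end MP3240M
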