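import Pool.Agent.Lib.MP_3240be_co.H43.Bv1h

/-!
# MP_3240be_co: the blue gadget with twins (Theorem M, finding 4598, part (A))

The twins of type `(v, v', w)` are joined to the slots `(v, v', ν, w)` of the gadget, for all `ν`,
provided that such a slot is joined to a free vertex.
-/

set_option autoImplicit false

namespace MP3240M

open Finset MP3240T MP3240W

/-- The twins of type `s` are joined to the slot `t`. -/
def twAdj {n N : ℕ} (H : SimpleGraph (Fin n)) (x y : Fin n) (s : Fin n × Fin n × Fin n)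
    (t : Slot n N) : Prop :=
  t.1 = s.1 ∧ t.2.1 = s.2.1 ∧ t.2.2.2 = s.2.2 ∧ ∃ v, zAdj H x y v t

/-- The vertices of the gadget with twins. -/
abbrev GT (n N τ : ℕ) : Type := (Fin n ⊕ Slot n N) ⊕ ((Fin n × Fin n × Fin n) × Fin τ)

/-- The gadget with `τ` twins of every type (without the edges between free vertices). -/
def tg {n N τ : ℕ} (H : SimpleGraph (Fin n)) (x y : Fin n) : GT n N τ → GT n N τ → Prop
  | .inl p, .inl p' => Bvh.gg H x y p p'
  | .inl (.inr t), .inr c => twAdj H x y c.1 t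
  | .inr c, .inl (.inr t) => twAdj H x y c.1 t
  | _, _ => False

/-- No gadget with twins for the edge `x y` contains `H`. -/
def TwinFree {n : ℕ} (H : SimpleGraph (Fin n)) (x y : Fin n) : Prop :=
  ∀ (N τ : ℕ) (F : Fin n → GT n N τ), Function.Injective F →
    (∀ i j, H.Adj i j → tg H x y (F i) (F j)) → False

/-- Row CLO: the closure lemma.  (`NoCut` in the form of `TwoStatement`.) -/
def CloStatement : Prop :=
  ∀ (n : ℕ) (H : SimpleGraph (Fin n)), TwoC (ed H) → H.Connected →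
    (∃ a b c, H.Adj a b ∧ H.Adj b c ∧ H.Adj a c) → ∃ x y, H.Adj x y ∧ TwinFree H x y

/-- `(A*)`: `I` and its neighbourhood are independent, `X` is independent, has at most `h`
elements and none of them is a neighbour of `I`, and the rest is 2-colourable. -/
def AStar {n : ℕ} (H : SimpleGraph (Fin n)) (h : ℕ) : Prop :=
  ∃ (I X : Finset (Fin n)) (κ : Fin n → Bool),
    (∀ a ∈ I, ∀ b ∈ I, ¬ H.Adj a b) ∧
    (∀ a ∈ I, ∀ b ∈ I, ∀ u v, H.Adj a u → H.Adj b v → ¬ H.Adj u v) ∧
    (∀ a ∈ X, ∀ b ∈ X, ¬ H.Adj a b) ∧ X.card ≤ h ∧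
    (∀ a ∈ I, ∀ u, H.Adj a u → u ∉ X) ∧
    ∀ u v, H.Adj u v → u ∉ I → v ∉ I → u ∉ X → v ∉ X → κ u ≠ κ v

end MP3240M
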