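import Pool.Agent.Lib.MP_3240be_co.M64.Defs

/-!
# MP_3240be_co: the blue gadget with attachments (general closure lemma)

In the gadget of an edge `x y` of `H` a graph `R s` is attached to the slots `(v, v', ν, w)` of every
type `s = (v, v', w)`: its vertices with `A s` are joined to all these slots.  If the attachments are
locally `K`-colourable together with one further vertex, and `H` is not `K`-colourable, then `H` has
an edge `x y` such that no such graph contains `H`.
-/

set_option autoImplicit false

namespace MP3240M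

open Finset MP3240T MP3240W

/-- The vertices of the gadget with attachments. -/
abbrev GY (n N : ℕ) (Y : Type) : Type := (Fin n ⊕ Slot n N) ⊕ ((Fin n × Fin n × Fin n) × Y)

/-- The gadget with the attachments `R s` (without the edges between free vertices). -/
def yg {n N : ℕ} {Y : Type} (H : SimpleGraph (Fin n)) (x y : Fin n)
    (R : Fin n × Fin n × Fin n → Y → Y → Prop) (A : Fin n × Fin n × Fin n → Y → Prop) :
    GY n N Y → GY n N Y → Prop
  | .inl p, .inl p' => Bvh.gg H x y p p'
  | .inl (.inr t), .inr c => A c.1 c.2 ∧ twAdj H x y c.1 t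
  | .inr c, .inl (.inr t) => A c.1 c.2 ∧ twAdj H x y c.1 t
  | .inr c, .inr c' => c.1 = c'.1 ∧ R c.1 c.2 c'.2
  | _, _ => False

/-- Every `n` vertices of the attachment can be coloured with `K` colours such that the vertices
joined to the slots miss the colour `k`. -/
def AttCol {Y : Type} (K n : ℕ) (R : Y → Y → Prop) (A : Y → Prop) : Prop :=
  ∀ P : Finset Y, P.card ≤ n → ∃ (χ : Y → Fin K) (k : Fin K),
    (∀ a ∈ P, ∀ b ∈ P, R a b → χ a ≠ χ b) ∧ ∀ a ∈ P, A a → χ a ≠ k

/-- No gadget with attachments for the edge `x y` contains `H`. -/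
def AttFree {n : ℕ} (H : SimpleGraph (Fin n)) (K : ℕ) (x y : Fin n) : Prop :=
  ∀ (N : ℕ) (Y : Type) (R : Fin n × Fin n × Fin n → Y → Y → Prop)
    (A : Fin n × Fin n × Fin n → Y → Prop), (∀ s, AttCol K n (R s) (A s)) →
    ∀ F : Fin n → GY n N Y, Function.Injective F →
      (∀ i j, H.Adj i j → yg H x y R A (F i) (F j)) → False

/-- Row GENCLO: the general closure lemma. -/
def GenCloStatement : Prop :=
  ∀ (n K : ℕ) (H : SimpleGraph (Fin n)), 2 ≤ K → TwoC (ed H) → H.Connected → ¬ H.Colorable K →
    ∃ x y, H.Adj x y ∧ AttFree H K x y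

end MP3240M
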