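import Pool.Agent.Lib.MP_3240be_co.H43.Defs

/-!
# MP_3240be_co, Theorem M, row LEF: 2-connected edge sets and the leaf lemma
-/

set_option autoImplicit false

namespace MP3240M

open Finset MP3240T MP3240W

/-- The union of two 2-connected edge sets with two common vertices is 2-connected. -/
theorem union_twoC {X : Type} [DecidableEq X] {I J : Finset (Sym2 X)} (hI : TwoC I) (hJ : TwoC J)
    {u v : X} (huv : u ≠ v) (hu : Shares I J u) (hv : Shares I J v) : TwoC (I ∪ J) := by
  classical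
  intro K K' hK hK' hd hp
  -- one of the two sets is divided
  have half : ∀ A : Finset (Sym2 X), TwoC A → (∀ e ∈ A, e ∈ K ∨ e ∈ K') →
      (∃ e ∈ A, e ∈ K) → (∃ e ∈ A, e ∈ K') →
      ∃ u v, u ≠ v ∧ Shares K K' u ∧ Shares K K' v := by
    intro A hA hc h1 h2
    obtain ⟨e1, h1, h1'⟩ := h1
    obtain ⟨e2, h2, h2'⟩ := h2
    obtain ⟨a, b, hab, ha, hb⟩ := hA (A.filter (· ∈ K)) (A.filter (· ∈ K'))
      ⟨e1, mem_filter.2 ⟨h1, h1'⟩⟩ ⟨e2, mem_filter.2 ⟨h2, h2'⟩⟩
      (by
        rw [Finset.disjoint_left]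
        intro e he he'
        exact Finset.disjoint_left.1 hd (mem_filter.1 he).2 (mem_filter.1 he').2)
      (by
        intro e
        rw [mem_filter, mem_filter]
        constructor
        · intro h
          rcases hc e h with h3 | h3
          · exact Or.inl ⟨h, h3⟩
          · exact Or.inr ⟨h, h3⟩
        · rintro (h | h)
          · exact h.1
          · exact h.1)
    have conv : ∀ w, Shares (A.filter (· ∈ K)) (A.filter (· ∈ K')) w → Shares K K' w := by
      rintro w ⟨⟨e, he, hwe⟩, ⟨e', he', hwe'⟩⟩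
      exact ⟨⟨e, (mem_filter.1 he).2, hwe⟩, ⟨e', (mem_filter.1 he').2, hwe'⟩⟩
    exact ⟨a, b, hab, conv a ha, conv b hb⟩
  have cI : ∀ e ∈ I, e ∈ K ∨ e ∈ K' := fun e he => (hp e).1 (mem_union_left _ he)
  have cJ : ∀ e ∈ J, e ∈ K ∨ e ∈ K' := fun e he => (hp e).1 (mem_union_right _ he)
  by_cases i1 : ∃ e ∈ I, e ∈ K
  · by_cases i2 : ∃ e ∈ I, e ∈ K'
    · exact half I hI cI i1 i2
    · by_cases j1 : ∃ e ∈ J, e ∈ K
      · by_cases j2 : ∃ e ∈ J, e ∈ K'
        · exact half J hJ cJ j1 j2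
        · exfalso
          obtain ⟨e, he⟩ := hK'
          rcases mem_union.1 ((hp e).2 (Or.inr he)) with h | h
          · exact i2 ⟨e, h, he⟩
          · exact j2 ⟨e, h, he⟩
      · -- `I ⊆ K`, `J ⊆ K'`
        have kI : ∀ e ∈ I, e ∈ K := by
          intro e he
          rcases cI e he with h | h
          · exact h
          · exact absurd ⟨e, he, h⟩ i2
        have kJ : ∀ e ∈ J, e ∈ K' := by
          intro e he
          rcases cJ e he with h | h
          · exact absurd ⟨e, he, h⟩ j1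
          · exact h
        have conv : ∀ w, Shares I J w → Shares K K' w := by
          rintro w ⟨⟨e, he, hwe⟩, ⟨e', he', hwe'⟩⟩
          exact ⟨⟨e, kI e he, hwe⟩, ⟨e', kJ e' he', hwe'⟩⟩
        exact ⟨u, v, huv, conv u hu, conv v hv⟩
  · have kI : ∀ e ∈ I, e ∈ K' := by
      intro e he
      rcases cI e he with h | h
      · exact absurd ⟨e, he, h⟩ i1
      · exact h
    by_cases j2 : ∃ e ∈ J, e ∈ K'
    · by_cases j1 : ∃ e ∈ J, e ∈ K
      · exact half J hJ cJ j1 j2
      · exfalso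
        obtain ⟨e, he⟩ := hK
        rcases mem_union.1 ((hp e).2 (Or.inl he)) with h | h
        · exact i1 ⟨e, h, he⟩
        · exact j1 ⟨e, h, he⟩
    · have kJ : ∀ e ∈ J, e ∈ K := by
        intro e he
        rcases cJ e he with h | h
        · exact h
        · exact absurd ⟨e, he, h⟩ j2
      have conv : ∀ w, Shares I J w → Shares K K' w := by
        rintro w ⟨⟨e, he, hwe⟩, ⟨e', he', hwe'⟩⟩
        exact ⟨⟨e', kJ e' he', hwe'⟩, ⟨e, kI e he, hwe⟩⟩
      exact ⟨u, v, huv, conv u hu, conv v hv⟩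

/-- The edge set of a triangle is 2-connected. -/
theorem tri_twoC {X : Type} [DecidableEq X] {a b c : X} (hab : a ≠ b) (hbc : b ≠ c)
    (hac : a ≠ c) : TwoC ({s(a, b), s(b, c), s(a, c)} : Finset (Sym2 X)) := by
  classical
  intro K K' hK hK' hd hp
  have h1 : s(a, b) ∈ K ∨ s(a, b) ∈ K' := (hp _).1 (by simp)
  have h2 : s(b, c) ∈ K ∨ s(b, c) ∈ K' := (hp _).1 (by simp)
  have h3 : s(a, c) ∈ K ∨ s(a, c) ∈ K' := (hp _).1 (by simp)
  have mk : ∀ (e e' : Sym2 X) (w : X), e ∈ K → e' ∈ K' → w ∈ e → w ∈ e' → Shares K K' w :=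
    fun e e' w he he' hw hw' => ⟨⟨e, he, hw⟩, ⟨e', he', hw'⟩⟩
  have la : ∀ w w' : X, w ∈ s(w, w') := fun w w' => Sym2.mem_mk_left w w'
  have lb : ∀ w w' : X, w' ∈ s(w, w') := fun w w' => Sym2.mem_mk_right w w'
  rcases h1 with h1 | h1 <;> rcases h2 with h2 | h2 <;> rcases h3 with h3 | h3
  · exfalso
    obtain ⟨e, he⟩ := hK'
    have := (hp e).2 (Or.inr he)
    simp only [mem_insert, mem_singleton] at this
    rcases this with rfl | rfl | rfl
    · exact Finset.disjoint_left.1 hd h1 he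
    · exact Finset.disjoint_left.1 hd h2 he
    · exact Finset.disjoint_left.1 hd h3 he
  · exact ⟨a, c, hac, mk _ _ a h1 h3 (la _ _) (la _ _), mk _ _ c h2 h3 (lb _ _) (lb _ _)⟩
  · exact ⟨b, c, hbc, mk _ _ b h1 h2 (lb _ _) (la _ _), mk _ _ c h3 h2 (lb _ _) (lb _ _)⟩
  · exact ⟨a, b, hab, mk _ _ a h1 h3 (la _ _) (la _ _), mk _ _ b h1 h2 (lb _ _) (la _ _)⟩
  · exact ⟨a, b, hab, mk _ _ a h3 h1 (la _ _) (la _ _), mk _ _ b h2 h1 (la _ _) (lb _ _)⟩
  · exact ⟨b, c, hbc, mk _ _ b h2 h1 (la _ _) (lb _ _), mk _ _ c h2 h3 (lb _ _) (lb _ _)⟩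
  · exact ⟨a, c, hac, mk _ _ a h3 h1 (la _ _) (la _ _), mk _ _ c h3 h2 (lb _ _) (lb _ _)⟩
  · exfalso
    obtain ⟨e, he⟩ := hK
    have := (hp e).2 (Or.inl he)
    simp only [mem_insert, mem_singleton] at this
    rcases this with rfl | rfl | rfl
    · exact Finset.disjoint_left.1 hd he h1
    · exact Finset.disjoint_left.1 hd he h2
    · exact Finset.disjoint_left.1 hd he h3

/-- The leaf lemma. -/
theorem leaf {X : Type} [DecidableEq X] [Nonempty X] (𝒳 : Finset (Finset (Sym2 X)))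
    (hne : 𝒳.Nonempty) (h2 : ∀ B ∈ 𝒳, B.Nonempty ∧ TwoC B)
    (hmax : ∀ 𝒴 ⊆ 𝒳, 2 ≤ 𝒴.card → ¬ TwoC (𝒴.biUnion id)) :
    ∃ B ∈ 𝒳, ∃ v₀, ∀ B' ∈ 𝒳, B' ≠ B → ∀ v, Shares B B' v → v = v₀ := by
  classical
  have key : ∀ k : ℕ, ∀ 𝒴 ⊆ 𝒳, 𝒴.card = k → 𝒴.Nonempty →
      (∃ w, ∀ B ∈ 𝒴, ∀ B' ∈ 𝒳, B' ∉ 𝒴 → ∀ v, Shares B B' v → v = w) →
      ∃ B ∈ 𝒳, ∃ v₀, ∀ B' ∈ 𝒳, B' ≠ B → ∀ v, Shares B B' v → v = v₀ := by
    intro k
    induction k using Nat.strong_induction_on with
    | _ k ih =>
      intro 𝒴 hY hk hYne ⟨w, hw⟩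
      by_cases h1 : 2 ≤ 𝒴.card
      · have hn := hmax 𝒴 hY h1
        unfold TwoC at hn
        push Not at hn
        obtain ⟨K, K', hK, hK', hd, hp, hs⟩ := hn
        obtain ⟨w', hw'⟩ : ∃ w', ∀ v, Shares K K' v → v = w' := by
          by_cases h3 : ∃ v, Shares K K' v
          · obtain ⟨v, hv⟩ := h3
            refine ⟨v, fun u hu => ?_⟩
            by_contra huv
            exact hs u v huv hu hv
          · obtain ⟨v⟩ := (inferInstance : Nonempty X)
            exact ⟨v, fun u hu => absurd ⟨u, hu⟩ h3⟩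
        have hcov : ∀ B ∈ 𝒴, ∀ e ∈ B, e ∈ K ∨ e ∈ K' := fun B hB e he =>
          (hp e).1 (mem_biUnion.2 ⟨B, hB, he⟩)
        have hside : ∀ B ∈ 𝒴, B ⊆ K ∨ B ⊆ K' := by
          intro B hB
          by_contra hcon
          push Not at hcon
          obtain ⟨c1, c2⟩ := hcon
          obtain ⟨e1, he1, he1'⟩ := not_subset.1 c1
          obtain ⟨e2, he2, he2'⟩ := not_subset.1 c2
          have f1 : e1 ∈ K' := (hcov B hB e1 he1).resolve_left he1'
          have f2 : e2 ∈ K := (hcov B hB e2 he2).resolve_right he2'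
          obtain ⟨a, b, hab, ha, hb⟩ := (h2 B (hY hB)).2 (B.filter (· ∈ K)) (B.filter (· ∈ K'))
            ⟨e2, mem_filter.2 ⟨he2, f2⟩⟩ ⟨e1, mem_filter.2 ⟨he1, f1⟩⟩
            (by
              rw [Finset.disjoint_left]
              intro e he he'
              exact Finset.disjoint_left.1 hd (mem_filter.1 he).2 (mem_filter.1 he').2)
            (by
              intro e
              rw [mem_filter, mem_filter]
              constructor
              · intro h
                rcases hcov B hB e h with h3 | h3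
                · exact Or.inl ⟨h, h3⟩
                · exact Or.inr ⟨h, h3⟩
              · rintro (h | h)
                · exact h.1
                · exact h.1)
          have conv : ∀ w, Shares (B.filter (· ∈ K)) (B.filter (· ∈ K')) w → Shares K K' w := by
            rintro w ⟨⟨e, he, hwe⟩, ⟨e', he', hwe'⟩⟩
            exact ⟨⟨e, (mem_filter.1 he).2, hwe⟩, ⟨e', (mem_filter.1 he').2, hwe'⟩⟩
          exact hs a b hab (conv a ha) (conv b hb)
        set Y1 := 𝒴.filter (fun B => B ⊆ K) with hY1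
        set Y2 := 𝒴.filter (fun B => ¬ B ⊆ K) with hY2
        have m2 : ∀ B ∈ Y2, B ⊆ K' := fun B hB =>
          (hside B (mem_filter.1 hB).1).resolve_left (mem_filter.1 hB).2
        have n1 : Y1.Nonempty := by
          obtain ⟨e, he⟩ := hK
          obtain ⟨B, hB, heB⟩ := mem_biUnion.1 ((hp e).2 (Or.inl he))
          refine ⟨B, mem_filter.2 ⟨hB, ?_⟩⟩
          rcases hside B hB with h3 | h3
          · exact h3
          · exact absurd (h3 heB) (fun h4 => Finset.disjoint_left.1 hd he h4)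
        have n2 : Y2.Nonempty := by
          obtain ⟨e, he⟩ := hK'
          obtain ⟨B, hB, heB⟩ := mem_biUnion.1 ((hp e).2 (Or.inr he))
          refine ⟨B, mem_filter.2 ⟨hB, fun h3 => ?_⟩⟩
          exact Finset.disjoint_left.1 hd (h3 heB) he
        have hcard : Y1.card + Y2.card = 𝒴.card := card_filter_add_card_filter_not _
        have s1 : ∀ B ∈ Y1, ∀ B' ∈ Y2, ∀ v, Shares B B' v → v = w' := by
          rintro B hB B' hB' v ⟨⟨e, he, hve⟩, ⟨e', he', hve'⟩⟩
          exact hw' v ⟨⟨e, (mem_filter.1 hB).2 he, hve⟩, ⟨e', m2 B' hB' he', hve'⟩⟩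
        by_cases g1 : ∃ B ∈ Y1, ∃ e ∈ B, w ∈ e
        · by_cases g2 : ∃ B ∈ Y2, ∃ e ∈ B, w ∈ e
          · obtain ⟨B, hB, e, he, hwe⟩ := g1
            obtain ⟨B', hB', e', he', hwe'⟩ := g2
            have hww : w = w' := s1 B hB B' hB' w ⟨⟨e, he, hwe⟩, ⟨e', he', hwe'⟩⟩
            refine ih Y1.card ?_ Y1 ((filter_subset _ _).trans hY) rfl n1 ⟨w, ?_⟩
            · have := n2.card_pos
              omega
            · intro C hC C' hC' hC'' v hv
              by_cases hC3 : C' ∈ 𝒴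
              · rw [hww]
                refine s1 C hC C' (mem_filter.2 ⟨hC3, fun h => hC'' (mem_filter.2 ⟨hC3, h⟩)⟩) v hv
              · exact hw C (mem_filter.1 hC).1 C' hC' hC3 v hv
          · refine ih Y2.card ?_ Y2 ((filter_subset _ _).trans hY) rfl n2 ⟨w', ?_⟩
            · have := n1.card_pos
              omega
            · intro C hC C' hC' hC'' v hv
              by_cases hC3 : C' ∈ 𝒴
              · have hC4 : C' ∈ Y1 := by
                  by_contra h
                  exact hC'' (mem_filter.2 ⟨hC3, fun h5 => h (mem_filter.2 ⟨hC3, h5⟩)⟩)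
                exact s1 C' hC4 C hC v ⟨hv.2, hv.1⟩
              · exfalso
                have := hw C (mem_filter.1 hC).1 C' hC' hC3 v hv
                obtain ⟨⟨e, he, hve⟩, -⟩ := hv
                rw [this] at hve
                exact g2 ⟨C, hC, e, he, hve⟩
        · refine ih Y1.card ?_ Y1 ((filter_subset _ _).trans hY) rfl n1 ⟨w', ?_⟩
          · have := n2.card_pos
            omega
          · intro C hC C' hC' hC'' v hv
            by_cases hC3 : C' ∈ 𝒴
            · exact s1 C hC C' (mem_filter.2 ⟨hC3, fun h => hC'' (mem_filter.2 ⟨hC3, h⟩)⟩) v hv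
            · exfalso
              have := hw C (mem_filter.1 hC).1 C' hC' hC3 v hv
              obtain ⟨⟨e, he, hve⟩, -⟩ := hv
              rw [this] at hve
              exact g1 ⟨C, hC, e, he, hve⟩
      · have h3 : 𝒴.card = 1 := by
          have := hYne.card_pos
          omega
        obtain ⟨B, hB⟩ := card_eq_one.1 h3
        refine ⟨B, hY (by rw [hB]; exact mem_singleton_self _), w, ?_⟩
        intro B' hB' hne' v hv
        exact hw B (by rw [hB]; exact mem_singleton_self _) B' hB'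
          (by rw [hB]; exact fun h => hne' (mem_singleton.1 h)) v hv
  obtain ⟨w⟩ := (inferInstance : Nonempty X)
  exact key _ 𝒳 (Subset.refl _) rfl hne ⟨w, fun B _ B' hB' hB'' => absurd hB' hB''⟩

end MP3240M
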